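import Mathlib

set_option autoImplicit false

/-!
# Shifts of the Fibonacci-Thue-Morse sequence

The number of states of automata for the shift of the Fibonacci-Thue-Morse sequence by a Fibonacci
number.
-/

namespace Pool.Agent.R436.FibShift

/-- Words (most significant digit first) without two adjacent ones. -/
def Valid (w : List Bool) : Prop := w.IsChain fun a b => a = false ∨ b = false

/-- The number represented by a word, most significant digit first. -/
def value : List Bool → ℕ
  | [] => 0
  | d :: w => (if d then Nat.fib (w.length + 2) else 0) + value w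

/-- The Fibonacci-Thue-Morse sequence. -/
def t (i : ℕ) : ℕ := (Nat.zeckendorf i).length % 2

lemma valid_nil : Valid [] := List.isChain_nil

lemma valid_append {a b : List Bool} : Valid (a ++ b) ↔ Valid a ∧ Valid b ∧
    ∀ x ∈ a.getLast?, ∀ y ∈ b.head?, x = false ∨ y = false := List.isChain_append

lemma valid_cons {d : Bool} {w : List Bool} : Valid (d :: w) ↔
    (∀ y ∈ w.head?, d = false ∨ y = false) ∧ Valid w := List.isChain_cons

/-! ### The Zeckendorf representation -/

/-- The indices of the ones. -/
def idx : List Bool → List ℕ
  | [] => []
  | d :: w => if d then (w.length + 2) :: idx w else idx w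

lemma sum_idx : ∀ w : List Bool, ((idx w).map Nat.fib).sum = value w
  | [] => rfl
  | d :: w => by cases d <;> simp [idx, value, sum_idx w]

lemma length_idx : ∀ w : List Bool, (idx w).length = w.count true
  | [] => rfl
  | d :: w => by cases d <;> simp [idx, length_idx w]

lemma idx_head_le : ∀ w : List Bool, ∀ a ∈ (idx w ++ [0]).head?, a ≤ w.length + 1
  | [] => by simp [idx]
  | true :: w => by simp [idx]
  | false :: w => by
    intro a ha
    have := idx_head_le w a (by simpa [idx] using ha)
    simp only [List.length_cons]
    omega

lemma idx_zeck : ∀ w : List Bool, Valid w → (idx w).IsZeckendorfRep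
  | [], _ => by simp [idx]
  | false :: w, h => by simpa [idx] using idx_zeck w (valid_cons.1 h).2
  | true :: w, h => by
    have h1 := idx_zeck w (valid_cons.1 h).2
    rw [List.IsZeckendorfRep] at h1 ⊢
    simp only [idx, if_true, List.cons_append]
    refine List.isChain_cons.2 ⟨?_, h1⟩
    intro a ha
    cases w with
    | nil =>
      simp only [idx, List.nil_append, List.head?_cons, Option.mem_some_iff] at ha
      simp only [List.length_nil]
      omega
    | cons x w =>
      have hx : x = false := by
        have := (valid_cons.1 h).1 x (by simp)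
        simpa using this
      subst hx
      have := idx_head_le w a (by simpa [idx] using ha)
      simp only [List.length_cons]
      omega

lemma t_value {w : List Bool} (h : Valid w) : t (value w) = w.count true % 2 := by
  rw [t, ← sum_idx, Nat.zeckendorf_sum_fib (idx_zeck w h), length_idx]

/-! ### Values with offset -/

/-- The value of a word followed by `k` zeros. -/
def V : List Bool → ℕ → ℕ
  | [], _ => 0
  | d :: w, k => (if d then Nat.fib (w.length + k + 2) else 0) + V w k

lemma value_append (a b : List Bool) : value (a ++ b) = V a b.length + value b := by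
  induction a with
  | nil => simp [V]
  | cons d a ih => simp only [List.cons_append, value, V, ih, List.length_append]; ring

lemma V_append (a b : List Bool) (k : ℕ) : V (a ++ b) k = V a (b.length + k) + V b k := by
  induction a with
  | nil => simp [V]
  | cons d a ih =>
    simp only [List.cons_append, V, ih, List.length_append]
    rw [show a.length + b.length + k + 2 = a.length + (b.length + k) + 2 by ring]
    ring

/-! ### The effect of adding a Fibonacci number -/

/-- Length of the run of ones at the positions `0, 2, 4, …`. -/
def up : List Bool → ℕ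
  | [] => 0
  | [true] => 1
  | true :: _ :: l => 1 + up l
  | false :: _ => 0

/-- The digit below a run of ones going down. -/
def tl : List Bool → ℕ
  | [] => 1
  | [_] => 0
  | _ :: true :: l => tl l
  | [_, false] => 0
  | _ :: false :: x :: _ => if x then 1 else 0

/-- The change of the number of ones (modulo 2) when adding a Fibonacci number. The first argument
is the higher part, nearest digit first, the second one starts with the digit concerned. -/
def Pz (hr : List Bool) : List Bool → ℕ
  | [] => 0
  | true :: lo => 1 + up hr.tail + tl lo
  | false :: lo =>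
    if hr.head? = some true then 1 + up hr else
    if lo.head? = some true then up hr.tail else 1

lemma fib_two (k : ℕ) : Nat.fib (k + 2) = Nat.fib k + Nat.fib (k + 1) := Nat.fib_add_two

lemma exists_up : ∀ hr : List Bool, Valid hr.reverse → ∀ k : ℕ, ∃ g : List Bool, Valid g ∧
    (hr.head? = some true → g.getLast? = some false) ∧
    V g k = V hr.reverse (k + 1) + Nat.fib (k + 2) ∧
    g.count true % 2 = (hr.count true + 1 + up hr) % 2
  | [], _, k => ⟨[true], List.isChain_singleton _, by simp, by simp [V], by simp [up]⟩
  | false :: l, h, k => by
    refine ⟨(false :: l).reverse ++ [true], ?_, by simp, ?_, ?_⟩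
    · rw [valid_append]
      refine ⟨h, List.isChain_singleton _, ?_⟩
      intro x hx y _
      left
      simpa using hx.symm
    · rw [V_append]
      simp only [List.length_singleton, V, if_true, List.length_nil]
      rw [add_comm 1 k]
      simp
    · rw [List.count_append, List.count_reverse]
      simp [up]
  | [true], _, k => by
    refine ⟨[true, false, false], by simp [Valid], by simp, ?_, by simp [up]⟩
    simp only [V, List.length_cons, List.length_nil, List.reverse_singleton, if_true]
    have h1 := fib_two (k + 2)
    have e1 : 0 + 1 + 1 + k + 2 = k + 2 + 2 := by ring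
    have e2 : 0 + (k + 1) + 2 = k + 2 + 1 := by ring
    rw [e1, e2, h1]
    simp
    ring
  | true :: false :: l, h, k => by
    have h' : Valid l.reverse := by
      rw [List.reverse_cons, List.reverse_cons, List.append_assoc, valid_append] at h
      exact h.1
    obtain ⟨g, hg1, -, hg2, hg3⟩ := exists_up l h' (k + 2)
    refine ⟨g ++ [false, false], ?_, by simp, ?_, ?_⟩
    · rw [valid_append]
      refine ⟨hg1, by simp [Valid], ?_⟩
      intro x _ y hy
      right
      simpa using hy.symm
    · rw [V_append, List.reverse_cons, List.reverse_cons, V_append, V_append]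
      simp only [List.length_cons, List.length_nil, V, if_true]
      have e1 : 0 + 1 + 1 + k = k + 2 := by ring
      have e2 : 0 + 1 + (0 + 1 + (k + 1)) = k + 2 + 1 := by ring
      have e3 : 0 + (k + 1) + 2 = k + 2 + 1 := by ring
      rw [e1, e2, e3, hg2, fib_two (k + 2)]
      simp
      ring
    · rw [List.count_append]
      simp only [List.count_cons, up]
      simp
      omega
  | true :: true :: l, h, k => by
    exfalso
    rw [List.reverse_cons, List.reverse_cons, List.append_assoc, valid_append] at h
    have := h.2.1
    simp [Valid] at this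

lemma exists_down : ∀ lo : List Bool, Valid lo → lo.head? ≠ some true → ∃ lo2 : List Bool,
    Valid lo2 ∧ lo2.length = lo.length ∧ value lo2 = value lo + Nat.fib lo.length ∧
    lo2.count true % 2 = (lo.count true + 1 + tl lo) % 2
  | [], _, _ => ⟨[], valid_nil, rfl, by simp, by simp [tl]⟩
  | [false], _, _ => ⟨[true], by simp [Valid], rfl, by simp [value], by simp [tl]⟩
  | false :: false :: [], _, _ =>
    ⟨[false, true], by simp [Valid], rfl, by simp [value], by simp [tl]⟩
  | false :: false :: false :: r, h, _ => by
    refine ⟨false :: true :: false :: r, ?_, rfl, ?_, ?_⟩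
    · simp only [valid_cons] at h ⊢
      refine ⟨by simp, by simp, h.2.2.1, h.2.2.2⟩
    · simp only [value, List.length_cons]
      simp
      ring
    · simp [tl]
  | false :: false :: true :: r, h, _ => by
    refine ⟨true :: false :: false :: r, ?_, rfl, ?_, ?_⟩
    · simp only [valid_cons] at h ⊢
      refine ⟨by simp, by simp, by simp, h.2.2.2⟩
    · simp only [value, List.length_cons]
      have := fib_two (r.length + 2)
      simp
      rw [show r.length + 1 + 1 + 2 = r.length + 2 + 2 by ring, this]
      ring
    · simp [tl]
      omega
  | false :: true :: r, h, _ => by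
    have hr : Valid r := by
      simp only [valid_cons] at h
      exact h.2.2
    have hh : r.head? ≠ some true := by
      simp only [valid_cons] at h
      intro h2
      have := h.2.1 true (by rw [h2]; rfl)
      simp at this
    obtain ⟨r2, g1, g2, g3, g4⟩ := exists_down r hr hh
    refine ⟨true :: false :: r2, ?_, by simp [g2], ?_, ?_⟩
    · simp only [valid_cons]
      exact ⟨by simp, by simp, g1⟩
    · simp only [value, List.length_cons, g2, g3]
      have h1 := fib_two (r.length + 1)
      have h2 := fib_two r.length
      simp
      rw [show r.length + 1 + 2 = r.length + 1 + 2 by ring, h1]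
      rw [show r.length + 1 + 1 = r.length + 2 by ring]
      omega
    · simp only [List.count_cons, tl]
      simp
      omega
  | true :: _, _, h2 => absurd rfl h2

lemma up_of_head {hr : List Bool} (h : hr.head? ≠ some true) : up hr = 0 := by
  match hr, h with
  | [], _ => rfl
  | false :: _, _ => simp [up]
  | true :: _, h => exact absurd rfl h

lemma V_reverse_tail {hr : List Bool} (h : hr.head? ≠ some true) (k : ℕ) :
    V hr.reverse k = V hr.tail.reverse (k + 1) := by
  match hr, h with
  | [], _ => simp [V]
  | false :: l, _ =>
    rw [List.reverse_cons, V_append]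
    simp [V, add_comm]
  | true :: _, h => exact absurd rfl h

lemma count_tail {hr : List Bool} (h : hr.head? ≠ some true) :
    hr.count true = hr.tail.count true := by
  match hr, h with
  | [], _ => rfl
  | false :: l, _ => simp
  | true :: _, h => exact absurd rfl h

lemma valid_reverse_tail {hr : List Bool} (h : Valid hr.reverse) : Valid hr.tail.reverse := by
  match hr, h with
  | [], h => exact h
  | x :: l, h =>
    rw [List.reverse_cons, valid_append] at h
    exact h.1

lemma t_add (hr : List Bool) (d : Bool) (lo : List Bool) (h : Valid (hr.reverse ++ d :: lo)) :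
    t (value (hr.reverse ++ d :: lo) + Nat.fib (lo.length + 2)) =
      ((hr.reverse ++ d :: lo).count true + Pz hr (d :: lo)) % 2 := by
  rw [valid_append, valid_cons] at h
  obtain ⟨h1, ⟨h2, h3⟩, h4⟩ := h
  have f1 := fib_two lo.length
  have f2 := fib_two (lo.length + 1)
  cases d with
  | false =>
    by_cases hlo : lo.head? = some true
    · by_cases hhr : hr.head? = some true
      · obtain ⟨g, g1, g2, g3, g4⟩ := exists_up hr h1 lo.length
        have hv : Valid (g ++ lo) := by
          rw [valid_append]
          refine ⟨g1, h3, ?_⟩
          intro x hx y _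
          left
          rw [g2 hhr] at hx
          simpa using hx.symm
        have e1 : value (hr.reverse ++ false :: lo) + Nat.fib (lo.length + 2) = value (g ++ lo) := by
          rw [value_append, value_append, g3, List.length_cons, value]
          simp
          ring
        rw [e1, t_value hv, List.count_append, List.count_append, Pz, if_pos hhr]
        rw [List.count_reverse, List.count_cons]
        simp
        omega
      · obtain ⟨g, g1, -, g3, g4⟩ := exists_up hr.tail (valid_reverse_tail h1) (lo.length + 1)
        match lo, hlo with
        | true :: r, _ =>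
          have hv : Valid (g ++ false :: false :: r) := by
            rw [valid_append, valid_cons, valid_cons]
            refine ⟨g1, ⟨by simp, by simp, (valid_cons.1 h3).2⟩, ?_⟩
            intro x _ y hy
            right
            simpa using hy.symm
          have e1 : value (hr.reverse ++ false :: true :: r) + Nat.fib ((true :: r).length + 2) =
              value (g ++ false :: false :: r) := by
            rw [value_append, value_append, V_reverse_tail hhr]
            simp only [value, List.length_cons] at g3 f1 f2 ⊢
            simp
            rw [g3]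
            rw [show r.length + 1 + 1 + 2 = r.length + 1 + 1 + 2 by ring, f2]
            ring
          rw [e1, t_value hv, List.count_append, List.count_append, Pz, if_neg hhr,
            if_pos (show (true :: r).head? = some true from rfl)]
          rw [List.count_reverse, count_tail hhr]
          simp only [List.count_cons]
          simp
          omega
        | false :: r, hlo => simp at hlo
        | [], hlo => simp at hlo
    · obtain ⟨g, g1, g2, g3, g4⟩ := exists_up hr h1 lo.length
      have hv : Valid (g ++ lo) := by
        rw [valid_append]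
        refine ⟨g1, h3, ?_⟩
        intro x _ y hy
        right
        cases y with
        | false => rfl
        | true => exact absurd hy hlo
      have e1 : value (hr.reverse ++ false :: lo) + Nat.fib (lo.length + 2) = value (g ++ lo) := by
        rw [value_append, value_append, g3, List.length_cons, value]
        simp
        ring
      have e2 : Pz hr (false :: lo) = 1 + up hr := by
        rw [Pz]
        by_cases hhr : hr.head? = some true
        · rw [if_pos hhr]
        · rw [if_neg hhr, if_neg hlo, up_of_head hhr]
      rw [e1, t_value hv, List.count_append, List.count_append, e2]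
      rw [List.count_reverse, List.count_cons]
      simp
      omega
  | true =>
    have hhr : hr.head? ≠ some true := by
      intro hh
      have := h4 true (by rw [List.getLast?_reverse, hh]; rfl) true (by simp)
      simp at this
    have hlo : lo.head? ≠ some true := by
      intro hh
      have := h2 true (by rw [hh]; rfl)
      simp at this
    obtain ⟨g, g1, -, g3, g4⟩ := exists_up hr.tail (valid_reverse_tail h1) (lo.length + 1)
    obtain ⟨lo2, d1, d2, d3, d4⟩ := exists_down lo h3 hlo
    have hv : Valid (g ++ false :: lo2) := by
      rw [valid_append, valid_cons]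
      refine ⟨g1, ⟨by simp, d1⟩, ?_⟩
      intro x _ y hy
      right
      simpa using hy.symm
    have e1 : value (hr.reverse ++ true :: lo) + Nat.fib (lo.length + 2) =
        value (g ++ false :: lo2) := by
      rw [value_append, value_append, V_reverse_tail hhr, List.length_cons, List.length_cons, d2]
      simp only [value, d3, if_true]
      rw [g3]
      simp
      rw [f2, f1]
      ring
    rw [e1, t_value hv, List.count_append, List.count_append, Pz, List.count_reverse,
      count_tail hhr]
    simp only [List.count_cons]
    simp
    omega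

/-! ### Two interchangeable blocks -/

/-- `001001010001`. -/
def uA : List Bool := [false, false, true, false, false, true, false, true, false, false, false, true]

/-- `001010101001`. -/
def uB : List Bool := [false, false, true, false, true, false, true, false, true, false, false, true]

lemma tl_block (B : List Bool) : ∀ A : List Bool, tl (A ++ (uA ++ B)) = tl (A ++ (uB ++ B))
  | [] => rfl
  | [_] => rfl
  | _ :: true :: l => by
    simp only [List.cons_append, tl]
    exact tl_block B l
  | [_, false] => rfl
  | _ :: false :: _ :: _ => rfl

lemma head_block (B A : List Bool) : (A ++ (uA ++ B)).head? = (A ++ (uB ++ B)).head? := by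
  cases A <;> rfl

lemma Pz_block_lo (hr : List Bool) (d : Bool) (A B : List Bool) :
    Pz hr (d :: (A ++ (uA ++ B))) = Pz hr (d :: (A ++ (uB ++ B))) := by
  cases d <;> simp only [Pz, tl_block, head_block]

lemma up_block (Ar : List Bool) : ∀ q : List Bool,
    up (q ++ (uA.reverse ++ Ar)) = up (q ++ (uB.reverse ++ Ar))
  | [] => rfl
  | [true] => rfl
  | false :: _ => rfl
  | true :: _ :: l => by
    simp only [List.cons_append, up]
    rw [up_block Ar l]

lemma head_block' (Ar q : List Bool) :
    (q ++ (uA.reverse ++ Ar)).head? = (q ++ (uB.reverse ++ Ar)).head? := by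
  cases q <;> rfl

lemma up_tail_block (Ar q : List Bool) :
    up (q ++ (uA.reverse ++ Ar)).tail = up (q ++ (uB.reverse ++ Ar)).tail := by
  cases q with
  | nil => rfl
  | cons x q => exact up_block Ar q

lemma Pz_block_hi (q Ar : List Bool) (r : List Bool) :
    Pz (q ++ (uA.reverse ++ Ar)) r = Pz (q ++ (uB.reverse ++ Ar)) r := by
  match r with
  | [] => rfl
  | true :: lo => simp only [Pz, up_tail_block]
  | false :: lo => simp only [Pz, up_tail_block, up_block, head_block']

/-- Two words that may be exchanged in every context. -/
def Rel (s s' : List Bool) : Prop := s.length = s'.length ∧ ∀ A B : List Bool,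
  (Valid (A ++ (s ++ B)) ↔ Valid (A ++ (s' ++ B))) ∧
  ∀ i, Pz ((A ++ (s ++ B)).take i).reverse ((A ++ (s ++ B)).drop i) % 2 =
    Pz ((A ++ (s' ++ B)).take i).reverse ((A ++ (s' ++ B)).drop i) % 2

lemma valid_uA : Valid uA := by unfold Valid uA; decide

lemma valid_uB : Valid uB := by unfold Valid uB; decide

lemma rel_block : Rel uA uB := by
  refine ⟨rfl, fun A B => ⟨?_, fun i => ?_⟩⟩
  · rw [valid_append, valid_append, valid_append, valid_append]
    have h1 : (uA ++ B).head? = (uB ++ B).head? := rfl
    have h2 : uA.getLast? = uB.getLast? := rfl
    rw [h1, h2]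
    simp only [valid_uA, valid_uB]
  · rcases lt_or_ge i A.length with hi | hi
    · rw [List.take_append_of_le_length hi.le, List.take_append_of_le_length hi.le,
        List.drop_append_of_le_length hi.le, List.drop_append_of_le_length hi.le]
      obtain ⟨d, A', hA⟩ : ∃ d A', A.drop i = d :: A' := by
        cases hA : A.drop i with
        | nil =>
          have := List.drop_eq_nil_iff.1 hA
          omega
        | cons d A' => exact ⟨d, A', rfl⟩
      rw [hA, List.cons_append, List.cons_append, Pz_block_lo]
    · obtain ⟨j, rfl⟩ := Nat.exists_eq_add_of_le hi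
      rw [List.take_length_add_append, List.take_length_add_append, List.drop_length_add_append,
        List.drop_length_add_append, List.reverse_append, List.reverse_append]
      rcases lt_or_ge j 12 with hj | hj
      · generalize A.reverse = Ar
        interval_cases j
        all_goals simp [uA, uB, Pz, up, tl]
      · obtain ⟨k, rfl⟩ := Nat.exists_eq_add_of_le hj
        have e1 : (uA ++ B).take (12 + k) = uA ++ B.take k := by
          change (uA ++ B).take (uA.length + k) = _
          exact List.take_length_add_append _
        have e2 : (uB ++ B).take (12 + k) = uB ++ B.take k := by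
          change (uB ++ B).take (uB.length + k) = _
          exact List.take_length_add_append _
        have e3 : (uA ++ B).drop (12 + k) = B.drop k := by
          change (uA ++ B).drop (uA.length + k) = _
          exact List.drop_length_add_append _
        have e4 : (uB ++ B).drop (12 + k) = B.drop k := by
          change (uB ++ B).drop (uB.length + k) = _
          exact List.drop_length_add_append _
        rw [e1, e2, e3, e4, List.reverse_append, List.reverse_append, List.append_assoc,
          List.append_assoc, Pz_block_hi]

lemma Rel.refl (s : List Bool) : Rel s s := ⟨rfl, fun _ _ => ⟨Iff.rfl, fun _ => rfl⟩⟩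

lemma Rel.symm {s s' : List Bool} (h : Rel s s') : Rel s' s :=
  ⟨h.1.symm, fun A B => ⟨(h.2 A B).1.symm, fun i => ((h.2 A B).2 i).symm⟩⟩

lemma Rel.append {a a' b b' : List Bool} (h1 : Rel a a') (h2 : Rel b b') :
    Rel (a ++ b) (a' ++ b') := by
  refine ⟨by rw [List.length_append, List.length_append, h1.1, h2.1], fun A B => ?_⟩
  obtain ⟨p1, p2⟩ := h1.2 A (b ++ B)
  obtain ⟨q1, q2⟩ := h2.2 (A ++ a') B
  rw [List.append_assoc, List.append_assoc] at q1
  simp only [List.append_assoc] at q2 ⊢
  exact ⟨p1.trans q1, fun i => (p2 i).trans (q2 i)⟩

/-- Replace `001010101001` by `001001010001`. -/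
def fixB (b : List Bool) : List Bool := if b = uB then uA else b

lemma rel_fixB (b : List Bool) : Rel b (fixB b) := by
  unfold fixB
  split_ifs with h
  · rw [h]; exact rel_block.symm
  · exact Rel.refl b

lemma fixB_ne (b : List Bool) : fixB b ≠ uB := by
  unfold fixB
  split_ifs with h
  · unfold uA uB; decide
  · exact h

/-- Replacement in the aligned blocks. -/
def red : ℕ → List Bool → List Bool
  | 0, _ => []
  | k + 1, l => fixB (l.take 12) ++ red k (l.drop 12)

lemma rel_red : ∀ (k : ℕ) (l : List Bool), l.length = 12 * k → Rel l (red k l)
  | 0, l, h => by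
    rw [List.length_eq_zero_iff.1 (by omega : l.length = 0)]
    exact Rel.refl _
  | k + 1, l, h => by
    have h1 := rel_red k (l.drop 12) (by rw [List.length_drop]; omega)
    have h2 := (rel_fixB (l.take 12)).append h1
    rw [List.take_append_drop] at h2
    exact h2

/-! ### Counting -/

/-- The valid words of length `n`. -/
def vw : ℕ → List (List Bool)
  | 0 => [[]]
  | n + 1 => (vw n).map (false :: ·) ++ ((vw n).filter fun w => w.head? != some true).map (true :: ·)

lemma mem_vw : ∀ (n : ℕ) (w : List Bool), Valid w → w.length = n → w ∈ vw n
  | 0, w, _, h => by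
    rw [List.length_eq_zero_iff.1 h]
    simp [vw]
  | n + 1, [], _, h => by simp at h
  | n + 1, false :: w, hv, h => by
    have := mem_vw n w (valid_cons.1 hv).2 (by simpa using h)
    rw [vw, List.mem_append]
    left
    exact List.mem_map.2 ⟨w, this, rfl⟩
  | n + 1, true :: w, hv, h => by
    have := mem_vw n w (valid_cons.1 hv).2 (by simpa using h)
    rw [vw, List.mem_append]
    right
    refine List.mem_map.2 ⟨w, List.mem_filter.2 ⟨this, ?_⟩, rfl⟩
    have h1 := (valid_cons.1 hv).1
    cases w with
    | nil => rfl
    | cons x w =>
      have := h1 x (by simp)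
      simp at this
      subst this
      rfl

/-- The blocks. -/
def blk : List (List Bool) := (vw 12).filter fun w => w != uB

/-- Concatenations of `k` blocks. -/
def Rl : ℕ → List (List Bool)
  | 0 => [[]]
  | k + 1 => blk.flatMap fun b =>
      ((Rl k).filter fun r => b.getLast? != some true || r.head? != some true).map (b ++ ·)

lemma red_mem : ∀ (k : ℕ) (l : List Bool), l.length = 12 * k → Valid l → red k l ∈ Rl k
  | 0, l, _, _ => by simp [red, Rl]
  | k + 1, l, h, hv => by
    have hd : (l.drop 12).length = 12 * k := by rw [List.length_drop]; omega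
    have hvs : Valid (l.take 12) ∧ Valid (l.drop 12) := by
      rw [← List.take_append_drop 12 l, valid_append] at hv
      exact ⟨hv.1, hv.2.1⟩
    have h1 := red_mem k (l.drop 12) hd hvs.2
    have hr := (rel_red (k + 1) l h).2 [] []
    have hv2 : Valid (red (k + 1) l) := by
      have := hr.1
      simp only [List.nil_append, List.append_nil] at this
      exact this.1 hv
    rw [red, valid_append] at hv2
    have hlen : (fixB (l.take 12)).length = 12 := by
      rw [← (rel_fixB (l.take 12)).1, List.length_take]; omega
    rw [Rl, List.mem_flatMap]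
    refine ⟨fixB (l.take 12), ?_, ?_⟩
    · rw [blk, List.mem_filter]
      refine ⟨mem_vw 12 _ hv2.1 hlen, ?_⟩
      simpa using fixB_ne (l.take 12)
    · rw [List.mem_map]
      refine ⟨red k (l.drop 12), ?_, rfl⟩
      rw [List.mem_filter]
      refine ⟨h1, ?_⟩
      have h3 := hv2.2.2
      by_contra hcon
      simp only [Bool.or_eq_true, bne_iff_ne, ne_eq, not_or, not_not] at hcon
      have := h3 true (by rw [hcon.1]; rfl) true (by rw [hcon.2]; rfl)
      simp at this

/-- Number of words starting with one. -/
def cb (k : ℕ) : ℕ := (Rl k).countP fun r => r.head? == some true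

/-- Number of words not starting with one. -/
def ca (k : ℕ) : ℕ := (Rl k).countP fun r => r.head? != some true

lemma blk_ne_nil : ∀ b ∈ blk, b ≠ [] := by decide +kernel

lemma count1 : blk.countP (fun b => b.head? != some true && b.getLast? != some true) = 144 := by
  decide +kernel
lemma count2 : blk.countP (fun b => b.head? != some true && b.getLast? == some true) = 88 := by
  decide +kernel
lemma count3 : blk.countP (fun b => b.head? == some true && b.getLast? != some true) = 89 := by
  decide +kernel
lemma count4 : blk.countP (fun b => b.head? == some true && b.getLast? == some true) = 55 := by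
  decide +kernel

lemma length_Rl (k : ℕ) : (Rl k).length = cb k + ca k := by
  rw [List.length_eq_countP_add_countP (fun r : List Bool => r.head? == some true), cb, ca]
  congr 1
  apply List.countP_congr
  intro r _
  simp

lemma filter_len (k : ℕ) (b : List Bool) :
    ((Rl k).filter fun r => b.getLast? != some true || r.head? != some true).length =
      if b.getLast? = some true then ca k else cb k + ca k := by
  split_ifs with h
  · rw [← List.countP_eq_length_filter, ca]
    apply List.countP_congr
    intro r _
    simp [h]
  · rw [← length_Rl]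
    congr 1
    rw [List.filter_eq_self]
    intro r _
    simp [h]

lemma ca_aux (k : ℕ) : ∀ L : List (List Bool), (∀ b ∈ L, b ≠ []) →
    (L.flatMap fun b => ((Rl k).filter fun r =>
      b.getLast? != some true || r.head? != some true).map (b ++ ·)).countP
        (fun r => r.head? != some true) =
      L.countP (fun b => b.head? != some true && b.getLast? != some true) * (cb k + ca k) +
      L.countP (fun b => b.head? != some true && b.getLast? == some true) * ca k
  | [], _ => by simp
  | b :: L, h => by
    have ih := ca_aux k L fun b hb => h b (List.mem_cons_of_mem _ hb)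
    have hb : b ≠ [] := h b (by simp)
    rw [List.flatMap_cons, List.countP_append, ih, List.countP_map, List.countP_cons,
      List.countP_cons]
    obtain ⟨x, b', rfl⟩ := List.exists_cons_of_ne_nil hb
    have e : (List.countP ((fun r : List Bool => r.head? != some true) ∘ fun x_1 => x :: b' ++ x_1)
        (List.filter (fun r => (x :: b').getLast? != some true || r.head? != some true) (Rl k))) =
        if x = true then 0 else if (x :: b').getLast? = some true then ca k else cb k + ca k := by
      rw [← filter_len]
      cases x with
      | true =>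
        simp only [if_true]
        rw [List.countP_eq_zero]
        intro r _
        simp
      | false =>
        simp only [Bool.false_eq_true, if_false]
        rw [List.countP_eq_length]
        intro r _
        simp
    rw [e]
    cases x with
    | true => simp
    | false =>
      by_cases hl : (false :: b').getLast? = some true
      · simp [hl]; ring
      · simp [hl]; ring

lemma cb_aux (k : ℕ) : ∀ L : List (List Bool), (∀ b ∈ L, b ≠ []) →
    (L.flatMap fun b => ((Rl k).filter fun r =>
      b.getLast? != some true || r.head? != some true).map (b ++ ·)).countP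
        (fun r => r.head? == some true) =
      L.countP (fun b => b.head? == some true && b.getLast? != some true) * (cb k + ca k) +
      L.countP (fun b => b.head? == some true && b.getLast? == some true) * ca k
  | [], _ => by simp
  | b :: L, h => by
    have ih := cb_aux k L fun b hb => h b (List.mem_cons_of_mem _ hb)
    have hb : b ≠ [] := h b (by simp)
    rw [List.flatMap_cons, List.countP_append, ih, List.countP_map, List.countP_cons,
      List.countP_cons]
    obtain ⟨x, b', rfl⟩ := List.exists_cons_of_ne_nil hb
    have e : (List.countP ((fun r : List Bool => r.head? == some true) ∘ fun x_1 => x :: b' ++ x_1)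
        (List.filter (fun r => (x :: b').getLast? != some true || r.head? != some true) (Rl k))) =
        if x = false then 0 else if (x :: b').getLast? = some true then ca k else cb k + ca k := by
      rw [← filter_len]
      cases x with
      | false =>
        simp only [if_true]
        rw [List.countP_eq_zero]
        intro r _
        simp
      | true =>
        simp only [Bool.true_eq_false, if_false]
        rw [List.countP_eq_length]
        intro r _
        simp
    rw [e]
    cases x with
    | false => simp
    | true =>
      by_cases hl : (true :: b').getLast? = some true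
      · simp [hl]; ring
      · simp [hl]; ring

lemma ca_succ (k : ℕ) : ca (k + 1) = 144 * (cb k + ca k) + 88 * ca k := by
  rw [ca, Rl, ca_aux k blk blk_ne_nil, count1, count2]

lemma cb_succ (k : ℕ) : cb (k + 1) = 89 * (cb k + ca k) + 55 * ca k := by
  rw [cb, Rl, cb_aux k blk blk_ne_nil, count3, count4]

lemma count_bound : ∀ k : ℕ, (ca k : ℝ) ≤ (643 / 2) ^ k ∧ (cb k : ℝ) ≤ 0.62 * (643 / 2) ^ k
  | 0 => by
    constructor
    · simp [ca, Rl]
    · norm_num [cb, Rl]
  | k + 1 => by
    obtain ⟨h1, h2⟩ := count_bound k
    rw [ca_succ, cb_succ, pow_succ]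
    push_cast
    have h3 : (0 : ℝ) < (643 / 2) ^ k := by positivity
    constructor <;> norm_num at * <;> nlinarith

lemma length_bound (k : ℕ) : ((Rl k).length : ℝ) ≤ 2 * (643 / 2) ^ k := by
  obtain ⟨h1, h2⟩ := count_bound k
  have h3 : (0 : ℝ) < (643 / 2) ^ k := by positivity
  rw [length_Rl]
  push_cast
  norm_num at *
  linarith

/-! ### Growth of Fibonacci numbers -/

lemma fib_ratio : ∀ m : ℕ, 55 * Nat.fib (m + 9) ≤ 34 * Nat.fib (m + 10) ∧
    21 * Nat.fib (m + 10) ≤ 34 * Nat.fib (m + 9)
  | 0 => by decide
  | m + 1 => by
    obtain ⟨h1, h2⟩ := fib_ratio m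
    have h3 : Nat.fib (m + 11) = Nat.fib (m + 9) + Nat.fib (m + 10) := Nat.fib_add_two
    rw [show m + 1 + 9 = m + 10 by ring, show m + 1 + 10 = m + 11 by ring, h3]
    constructor <;> omega

lemma fib_twelve (m : ℕ) : 3219 * Nat.fib (m + 9) ≤ 10 * Nat.fib (m + 21) := by
  obtain ⟨h1, -⟩ := fib_ratio m
  have h : Nat.fib (m + 21) = 89 * Nat.fib (m + 9) + 144 * Nat.fib (m + 10) := by
    have := Nat.fib_add (m + 9) 11
    rw [show m + 9 + 11 + 1 = m + 21 by ring] at this
    rw [this]
    have e1 : Nat.fib 11 = 89 := by decide
    have e2 : Nat.fib (11 + 1) = 144 := by decide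
    rw [e1, e2]
    ring
  omega

lemma fib_growth : ∀ k : ℕ, ((3219 / 10) ^ k / 4 : ℝ) ≤ Nat.fib (12 * (k + 1) - 1)
  | 0 => by norm_num [Nat.fib]
  | k + 1 => by
    have ih := fib_growth k
    have h := fib_twelve (12 * k + 2)
    rw [show 12 * (k + 1) - 1 = 12 * k + 2 + 9 by omega] at ih
    rw [show 12 * (k + 1 + 1) - 1 = 12 * k + 2 + 21 by omega, pow_succ]
    have h' : (3219 * Nat.fib (12 * k + 2 + 9) : ℝ) ≤ 10 * Nat.fib (12 * k + 2 + 21) := by
      exact_mod_cast h
    nlinarith

/-! ### Automata -/

section automata

open Classical in
/-- A representative of the class `x`. -/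
noncomputable def rep {X : Type} (σ : List Bool → X) (x : X) : List Bool :=
  if h : ∃ w, Valid w ∧ σ w = x then h.choose else []

lemma rep_spec {X : Type} (σ : List Bool → X) {w : List Bool} (hw : Valid w) :
    Valid (rep σ (σ w)) ∧ σ (rep σ (σ w)) = σ w := by
  have h : ∃ w', Valid w' ∧ σ w' = σ w := ⟨w, hw, rfl⟩
  rw [rep, dif_pos h]
  exact h.choose_spec

open Classical in
lemma exists_dfao {X : Type} [Fintype X] (h : ℕ → ℕ) (σ : List Bool → X)
    (hσ : ∀ w₁ w₂ : List Bool, Valid w₁ → Valid w₂ → σ w₁ = σ w₂ → ∀ y : List Bool,
      Valid (w₁ ++ y) → Valid (w₂ ++ y) ∧ h (value (w₁ ++ y)) = h (value (w₂ ++ y))) :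
    ∃ (δ : Fin (Fintype.card X) → Bool → Option (Fin (Fintype.card X)))
      (q₀ : Fin (Fintype.card X)) (τ : Fin (Fintype.card X) → ℕ),
      ∀ w : List Bool, Valid w → ∃ q, w.foldlM δ q₀ = some q ∧ τ q = h (value w) := by
  let e := Fintype.equivFin X
  let δ : Fin (Fintype.card X) → Bool → Option (Fin (Fintype.card X)) := fun q d =>
    if Valid (rep σ (e.symm q) ++ [d]) then some (e (σ (rep σ (e.symm q) ++ [d]))) else none
  have key : ∀ w : List Bool, Valid w → ∃ x : X, w.foldlM δ (e (σ [])) = some (e x) ∧
      ∀ y : List Bool, (Valid (w ++ y) ↔ Valid (rep σ x ++ y)) ∧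
        (Valid (w ++ y) → h (value (w ++ y)) = h (value (rep σ x ++ y))) := by
    intro w
    induction w using List.reverseRecOn with
    | nil =>
      intro _
      obtain ⟨r1, r2⟩ := rep_spec σ valid_nil
      refine ⟨σ [], rfl, fun y => ?_⟩
      refine ⟨⟨fun hy => (hσ _ _ valid_nil r1 r2.symm y hy).1,
        fun hy => (hσ _ _ r1 valid_nil r2 y hy).1⟩,
        fun hy => (hσ _ _ valid_nil r1 r2.symm y hy).2⟩
    | append_singleton w d ih =>
      intro hwd
      have hw : Valid w := (valid_append.1 hwd).1
      obtain ⟨x, hx1, hx2⟩ := ih hw
      have hv : Valid (rep σ x ++ [d]) := (hx2 [d]).1.1 hwd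
      obtain ⟨r1, r2⟩ := rep_spec σ hv
      refine ⟨σ (rep σ x ++ [d]), ?_, fun y => ?_⟩
      · rw [List.foldlM_append, hx1]
        simp [δ, hv]
      · have hx3 := hx2 ([d] ++ y)
        rw [← List.append_assoc, ← List.append_assoc] at hx3
        refine ⟨hx3.1.trans ⟨fun hy => (hσ _ _ hv r1 r2.symm y hy).1,
          fun hy => (hσ _ _ r1 hv r2 y hy).1⟩, fun hy => ?_⟩
        rw [hx3.2 hy]
        exact (hσ _ _ hv r1 r2.symm y (hx3.1.1 hy)).2
  refine ⟨δ, e (σ []), fun q => h (value (rep σ (e.symm q))), fun w hw => ?_⟩
  obtain ⟨x, hx1, hx2⟩ := key w hw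
  refine ⟨e x, hx1, ?_⟩
  have := (hx2 []).2 (by simpa using hw)
  simpa using this.symm

end automata

lemma up_ctx {a₁ a₂ : List Bool} (h1 : up a₁ % 2 = up a₂ % 2)
    (h2 : up a₁.tail % 2 = up a₂.tail % 2) : ∀ q : List Bool,
    up (q ++ a₁) % 2 = up (q ++ a₂) % 2
  | [] => h1
  | [true] => by
    have e : ∀ a : List Bool, up (true :: a) = 1 + up a.tail := by
      intro a
      cases a <;> simp [up]
    simp only [List.cons_append, List.nil_append, e]
    omega
  | false :: _ => rfl
  | true :: _ :: l => by
    have := up_ctx h1 h2 l
    simp only [List.cons_append, up]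
    omega

lemma Pz_ctx {a₁ a₂ : List Bool} (h1 : up a₁ % 2 = up a₂ % 2)
    (h2 : up a₁.tail % 2 = up a₂.tail % 2) {q : List Bool} (hq : q ≠ []) (D : List Bool) :
    Pz (q ++ a₁) D % 2 = Pz (q ++ a₂) D % 2 := by
  obtain ⟨x, q', rfl⟩ := List.exists_cons_of_ne_nil hq
  have e1 := up_ctx h1 h2 (x :: q')
  have e2 := up_ctx h1 h2 q'
  match D with
  | [] => rfl
  | true :: lo =>
    simp only [List.cons_append, Pz, List.tail_cons]
    omega
  | false :: lo =>
    have e3 : ∀ a : List Bool, Pz (x :: q' ++ a) (false :: lo) =
        if x = true then 1 + up (x :: q' ++ a) else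
        if lo.head? = some true then up (q' ++ a) else 1 := by
      intro a
      simp only [Pz, List.cons_append, List.head?_cons, List.tail_cons, Option.some.injEq]
    rw [e3, e3]
    split_ifs <;> omega

lemma valid_glue {a r y : List Bool} (h1 : Valid (a ++ r)) (h2 : Valid (r ++ y)) (hr : r ≠ []) :
    Valid (a ++ (r ++ y)) := by
  rw [valid_append] at h1 ⊢
  refine ⟨h1.1, h2, ?_⟩
  obtain ⟨x, r', rfl⟩ := List.exists_cons_of_ne_nil hr
  simpa using h1.2.2

lemma valid_zeros (k : ℕ) (w : List Bool) : Valid (List.replicate k false ++ w) ↔ Valid w := by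
  induction k with
  | zero => simp
  | succ k ih =>
    rw [List.replicate_succ, List.cons_append, valid_cons, ih]
    simp

lemma value_zeros (k : ℕ) (w : List Bool) : value (List.replicate k false ++ w) = value w := by
  induction k with
  | zero => simp
  | succ k ih =>
    rw [List.replicate_succ, List.cons_append, value, ih]
    simp

/-- The class of a word. -/
def sg (k : ℕ) (w : List Bool) : Fin ((Rl k).length + 1) × Fin 2 × Fin 2 × Fin 2 :=
  let z := List.replicate (12 * k) false ++ w
  (⟨(Rl k).idxOf (red k (z.drop w.length)), Nat.lt_succ_of_le List.idxOf_le_length⟩,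
    Fin.ofNat 2 (up (z.take w.length).reverse), Fin.ofNat 2 (up (z.take w.length).reverse.tail),
    Fin.ofNat 2 (w.count true))

/-- Everything about one word. -/
lemma analysis (k n : ℕ) (hn : n + 2 ≤ 12 * k) (w : List Bool) (hw : Valid w) :
    ∃ a r : List Bool, a = (List.replicate (12 * k) false ++ w).take w.length ∧
      r = red k ((List.replicate (12 * k) false ++ w).drop w.length) ∧ r ∈ Rl k ∧
      a.length = w.length ∧ r.length = 12 * k ∧ Valid (a ++ r) ∧
      ∀ y, (Valid (w ++ y) ↔ Valid (a ++ (r ++ y))) ∧
        (Valid (w ++ y) → t (value (w ++ y) + Nat.fib (n + 2)) =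
          (w.count true + y.count true +
            Pz (a ++ (r ++ y).take (12 * k + y.length - 1 - n)).reverse
              ((r ++ y).drop (12 * k + y.length - 1 - n))) % 2) := by
  set z := List.replicate (12 * k) false ++ w with hz
  have hzl : z.length = 12 * k + w.length := by rw [hz]; simp
  have hsl : (z.drop w.length).length = 12 * k := by rw [List.length_drop, hzl]; omega
  have hrel := rel_red k (z.drop w.length) hsl
  have hzv : Valid z := by rw [hz, valid_zeros]; exact hw
  have hsv : Valid (z.drop w.length) := by
    rw [← List.take_append_drop w.length z, valid_append] at hzv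
    exact hzv.2.1
  have hal : (z.take w.length).length = w.length := by rw [List.length_take, hzl]; omega
  have hsplit : ∀ y, List.replicate (12 * k) false ++ (w ++ y) =
      z.take w.length ++ (z.drop w.length ++ y) := by
    intro y
    rw [← List.append_assoc, ← hz, ← List.append_assoc, List.take_append_drop]
  have hval : ∀ y, Valid (w ++ y) ↔ Valid (z.take w.length ++ (red k (z.drop w.length) ++ y)) := by
    intro y
    rw [← valid_zeros (12 * k), hsplit]
    exact (hrel.2 _ y).1
  refine ⟨z.take w.length, red k (z.drop w.length), rfl, rfl, red_mem k _ hsl hsv, hal,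
    by rw [← hrel.1, hsl], ?_, fun y => ⟨hval y, fun hy => ?_⟩⟩
  · have := (hval []).1 (by simpa using hw)
    simpa using this
  · have hy' : Valid (z.take w.length ++ (z.drop w.length ++ y)) := by
      rw [← hsplit, valid_zeros]; exact hy
    have hi := (hrel.2 (z.take w.length) y).2 (w.length + (12 * k + y.length - 1 - n))
    set j := 12 * k + y.length - 1 - n with hj
    set W := z.take w.length ++ (z.drop w.length ++ y) with hW
    have hWl : W.length = w.length + (12 * k + y.length) := by
      rw [hW, List.length_append, List.length_append, hal, hsl]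
    obtain ⟨d, lo, hdl⟩ : ∃ d lo, W.drop (w.length + j) = d :: lo := by
      cases hA : W.drop (w.length + j) with
      | nil =>
        have := List.drop_eq_nil_iff.1 hA
        omega
      | cons d A' => exact ⟨d, A', rfl⟩
    have hlo : lo.length = n := by
      have := congrArg List.length hdl
      rw [List.length_drop, hWl, List.length_cons] at this
      omega
    have hWs : W = (W.take (w.length + j)).reverse.reverse ++ d :: lo := by
      rw [List.reverse_reverse, ← hdl, List.take_append_drop]
    have ht := t_add (W.take (w.length + j)).reverse d lo (by rw [← hWs]; exact hy')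
    rw [← hWs, hlo] at ht
    have hvz : value (w ++ y) = value W := by
      rw [hW, ← hsplit, value_zeros]
    have hcz : W.count true = w.count true + y.count true := by
      rw [hW, ← hsplit]
      simp [List.count_append, List.count_replicate]
    rw [hvz, ht, hcz, ← hdl]
    have e1 : (z.take w.length ++ (red k (z.drop w.length) ++ y)).take (w.length + j) =
        z.take w.length ++ (red k (z.drop w.length) ++ y).take j := by
      have := List.take_length_add_append (l₁ := z.take w.length)
        (l₂ := red k (z.drop w.length) ++ y) j
      rw [hal] at this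
      exact this
    have e2 : (z.take w.length ++ (red k (z.drop w.length) ++ y)).drop (w.length + j) =
        (red k (z.drop w.length) ++ y).drop j := by
      have := List.drop_length_add_append (l₁ := z.take w.length)
        (l₂ := red k (z.drop w.length) ++ y) j
      rw [hal] at this
      exact this
    rw [e1, e2] at hi
    rw [Nat.add_mod, hi, ← Nat.add_mod]

lemma ofNat_two {a b : ℕ} (h : Fin.ofNat 2 a = Fin.ofNat 2 b) : a % 2 = b % 2 := by
  have := congrArg Fin.val h
  simpa using this

lemma sg_spec (k n : ℕ) (hn : n + 2 ≤ 12 * k) (w₁ w₂ : List Bool) (h1 : Valid w₁) (h2 : Valid w₂)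
    (h : sg k w₁ = sg k w₂) (y : List Bool) (hy : Valid (w₁ ++ y)) :
    Valid (w₂ ++ y) ∧ t (value (w₁ ++ y) + Nat.fib (n + 2)) =
      t (value (w₂ ++ y) + Nat.fib (n + 2)) := by
  obtain ⟨a₁, r₁, ha₁, hr₁, m₁, la₁, lr₁, v₁, s₁⟩ := analysis k n hn w₁ h1
  obtain ⟨a₂, r₂, ha₂, hr₂, m₂, la₂, lr₂, v₂, s₂⟩ := analysis k n hn w₂ h2
  have g1 : (Rl k).idxOf r₁ = (Rl k).idxOf r₂ := by
    have := congrArg (fun p => p.1.val) h
    rw [hr₁, hr₂]
    exact this
  have g2 : Fin.ofNat 2 (up a₁.reverse) = Fin.ofNat 2 (up a₂.reverse) := by
    have := congrArg (fun p => p.2.1) h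
    rw [ha₁, ha₂]
    exact this
  have g3 : Fin.ofNat 2 (up a₁.reverse.tail) = Fin.ofNat 2 (up a₂.reverse.tail) := by
    have := congrArg (fun p => p.2.2.1) h
    rw [ha₁, ha₂]
    exact this
  have g4 : Fin.ofNat 2 (w₁.count true) = Fin.ofNat 2 (w₂.count true) :=
    congrArg (fun p => p.2.2.2) h
  have hr : r₁ = r₂ := (List.idxOf_inj m₁).1 g1
  subst hr
  have hne : r₁ ≠ [] := by
    intro h0
    rw [h0] at lr₁
    simp at lr₁
    omega
  have hy1 := (s₁ y).1.1 hy
  have hry : Valid (r₁ ++ y) := (valid_append.1 hy1).2.1
  have hy2 := (s₂ y).1.2 (valid_glue v₂ hry hne)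
  refine ⟨hy2, ?_⟩
  rw [(s₁ y).2 hy, (s₂ y).2 hy2, List.reverse_append, List.reverse_append]
  have hq : ((r₁ ++ y).take (12 * k + y.length - 1 - n)).reverse ≠ [] := by
    intro h0
    have := congrArg List.length h0
    rw [List.length_reverse, List.length_take, List.length_append, lr₁] at this
    simp at this
    omega
  have hP := Pz_ctx (ofNat_two g2) (ofNat_two g3) hq ((r₁ ++ y).drop (12 * k + y.length - 1 - n))
  have hc := ofNat_two g4
  omega

/-- There are automata with few states for the shift by a Fibonacci number. -/
theorem exists_small (κ : ℝ) (hκ : 0 < κ) (c₀ : ℕ) : ∃ c ≥ c₀, ∃ N : ℕ, (N : ℝ) < κ * c ∧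
    ∃ (δ : Fin N → Bool → Option (Fin N)) (q₀ : Fin N) (τ : Fin N → ℕ),
      ∀ w : List Bool, Valid w → ∃ q, w.foldlM δ q₀ = some q ∧ τ q = t (value w + c) := by
  have hlim : Filter.Tendsto (fun k : ℕ => (3215 / 3219 : ℝ) ^ k) Filter.atTop (nhds 0) :=
    tendsto_pow_atTop_nhds_zero_of_lt_one (by norm_num) (by norm_num)
  have hev := (hlim.eventually (gt_mem_nhds (show (0 : ℝ) < κ / 40000 by positivity)))
  obtain ⟨K, hK⟩ := Filter.eventually_atTop.1 hev
  set k := max K c₀ with hk
  have hk1 := hK k (le_max_left _ _)
  refine ⟨Nat.fib (12 * (k + 1) - 1), ?_, Fintype.card (Fin ((Rl (k + 1)).length + 1) × Fin 2 ×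
    Fin 2 × Fin 2), ?_, ?_⟩
  · have h1 : 12 * (k + 1) - 1 ≤ Nat.fib (12 * (k + 1) - 1) := Nat.le_fib_self (by omega)
    have h2 : c₀ ≤ k := le_max_right _ _
    omega
  · have h1 := length_bound (k + 1)
    have h2 := fib_growth k
    simp only [Fintype.card_prod, Fintype.card_fin]
    push_cast
    have h3 : (1 : ℝ) ≤ (643 / 2) ^ k := one_le_pow₀ (by norm_num)
    have h4 : (3215 / 3219 : ℝ) ^ k * (3219 / 10) ^ k = (643 / 2) ^ k := by
      rw [← mul_pow]; norm_num
    have h5 : (0 : ℝ) < (3219 / 10) ^ k := by positivity
    have h6 : (643 / 2 : ℝ) ^ k < κ / 40000 * (3219 / 10) ^ k := by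
      rw [← h4]
      exact mul_lt_mul_of_pos_right hk1 h5
    rw [pow_succ] at h1
    have h7 : κ * ((3219 / 10) ^ k / 4) ≤ κ * Nat.fib (12 * (k + 1) - 1) :=
      mul_le_mul_of_nonneg_left h2 hκ.le
    nlinarith
  · have hlen : 12 * (k + 1) - 3 + 2 ≤ 12 * (k + 1) := by omega
    have := exists_dfao (fun i => t (i + Nat.fib (12 * (k + 1) - 3 + 2))) (sg (k + 1))
      (fun w₁ w₂ h1 h2 h y hy => sg_spec (k + 1) (12 * (k + 1) - 3) hlen w₁ w₂ h1 h2 h y hy)
    rw [show 12 * (k + 1) - 3 + 2 = 12 * (k + 1) - 1 by omega] at this
    exact this

end Pool.Agent.R436.FibShift
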