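import Mathlib

set_option autoImplicit false

/-!
# Coefficients of ternary cyclotomic polynomials

Kaplan's formula for the coefficients of `Φ_{pqr}` in terms of those of `Φ_{pq}`, the formula of
Lam and Leung for `Φ_{pq}`.
-/

open Polynomial Finset

namespace Pool.Agent.R436.Ternary

lemma phi_pq {p q : ℕ} (hp : p.Prime) (hq : q.Prime) (hpq : p ≠ q) :
    cyclotomic (p * q) ℤ * (X ^ p - 1) * (X ^ q - 1) = (X ^ (p * q) - 1) * (X - 1) := by
  have : Fact p.Prime := ⟨hp⟩
  have h1 := cyclotomic_prime_mul_X_sub_one ℤ p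
  have h2 := cyclotomic_expand_eq_cyclotomic_mul (n := p) hq
    (fun h => hpq ((Nat.prime_dvd_prime_iff_eq hq hp).1 h).symm) ℤ
  have h3 := congrArg (expand ℤ q) h1
  rw [map_mul, h2, map_sub, map_sub, map_pow, map_one, expand_X, ← pow_mul, mul_comm q p] at h3
  rw [← h1, ← h3]
  ring

lemma phi_pqr {p q r : ℕ} (hp : p.Prime) (hq : q.Prime) (hr : r.Prime) (hpq : p ≠ q)
    (hpr : p ≠ r) (hqr : q ≠ r) :
    cyclotomic (p * q * r) ℤ * (X ^ (p * q) - 1) =
      expand ℤ r (cyclotomic (p * q) ℤ) * (∑ m ∈ range p, X ^ m) * (X ^ q - 1) := by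
  have hr' : ¬ r ∣ p * q := by
    intro h
    rcases (Nat.Prime.dvd_mul hr).1 h with h | h
    · exact hpr ((Nat.prime_dvd_prime_iff_eq hr hp).1 h).symm
    · exact hqr ((Nat.prime_dvd_prime_iff_eq hr hq).1 h).symm
  have h2 := cyclotomic_expand_eq_cyclotomic_mul (n := p * q) hr hr' ℤ
  have h1 := phi_pq hp hq hpq
  have h3 : (∑ m ∈ range p, (X : ℤ[X]) ^ m) * (X - 1) = X ^ p - 1 := geom_sum_mul X p
  have hne : (X - 1 : ℤ[X]) ≠ 0 := X_sub_C_ne_zero 1
  apply mul_right_cancel₀ hne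
  rw [h2]
  calc cyclotomic (p * q * r) ℤ * (X ^ (p * q) - 1) * (X - 1)
      = cyclotomic (p * q * r) ℤ * ((X ^ (p * q) - 1) * (X - 1)) := by ring
    _ = cyclotomic (p * q * r) ℤ * (cyclotomic (p * q) ℤ * (X ^ p - 1) * (X ^ q - 1)) := by rw [h1]
    _ = _ := by rw [← h3]; ring

/-- Lam and Leung's formula. -/
lemma lam_leung {p q l m : ℕ} (hp : p.Prime) (hq : q.Prime) (hpq : p ≠ q) (hl : l ≤ p)
    (hm : m ≤ q) (h : l * q + m * p = p * q + 1) :
    cyclotomic (p * q) ℤ = (∑ x ∈ range m, (X ^ p) ^ x) * (∑ y ∈ range l, (X ^ q) ^ y) -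
      X * ((∑ x ∈ range (q - m), (X ^ p) ^ x) * (∑ y ∈ range (p - l), (X ^ q) ^ y)) := by
  have h1 := phi_pq hp hq hpq
  have hne : ∀ n : ℕ, 0 < n → (X ^ n - 1 : ℤ[X]) ≠ 0 := fun n hn => X_pow_sub_C_ne_zero hn 1
  apply mul_right_cancel₀ (hne p hp.pos)
  apply mul_right_cancel₀ (hne q hq.pos)
  rw [h1]
  have g1 : (∑ x ∈ range m, ((X : ℤ[X]) ^ p) ^ x) * (X ^ p - 1) = (X ^ p) ^ m - 1 :=
    geom_sum_mul _ _
  have g2 : (∑ x ∈ range l, ((X : ℤ[X]) ^ q) ^ x) * (X ^ q - 1) = (X ^ q) ^ l - 1 :=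
    geom_sum_mul _ _
  have g3 : (∑ x ∈ range (q - m), ((X : ℤ[X]) ^ p) ^ x) * (X ^ p - 1) = (X ^ p) ^ (q - m) - 1 :=
    geom_sum_mul _ _
  have g4 : (∑ x ∈ range (p - l), ((X : ℤ[X]) ^ q) ^ x) * (X ^ q - 1) = (X ^ q) ^ (p - l) - 1 :=
    geom_sum_mul _ _
  have key : ((X ^ p) ^ m - 1) * ((X ^ q) ^ l - 1) -
      X * (((X ^ p) ^ (q - m) - 1) * ((X ^ q) ^ (p - l) - 1)) =
      (X ^ (p * q) - 1) * (X - 1 : ℤ[X]) := by
    have e1 : ((X : ℤ[X]) ^ p) ^ m * (X ^ q) ^ l = X ^ (p * q) * X := by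
      rw [← pow_mul, ← pow_mul, ← pow_add, ← pow_succ]; congr 1; rw [← h]; ring
    have e2 : (X : ℤ[X]) * ((X ^ p) ^ (q - m) * (X ^ q) ^ (p - l)) = X ^ (p * q) := by
      rw [← pow_mul, ← pow_mul, ← pow_add, ← pow_succ']
      congr 1
      zify [hl, hm]
      have : (l : ℤ) * q + m * p = p * q + 1 := by exact_mod_cast h
      linear_combination -this
    have e3 : (X : ℤ[X]) * (X ^ p) ^ (q - m) = (X ^ q) ^ l := by
      rw [← pow_mul, ← pow_mul, ← pow_succ']
      congr 1
      zify [hm]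
      have : (l : ℤ) * q + m * p = p * q + 1 := by exact_mod_cast h
      linear_combination -this
    have e4 : (X : ℤ[X]) * (X ^ q) ^ (p - l) = (X ^ p) ^ m := by
      rw [← pow_mul, ← pow_mul, ← pow_succ']
      congr 1
      zify [hl]
      have : (l : ℤ) * q + m * p = p * q + 1 := by exact_mod_cast h
      linear_combination -this
    linear_combination e1 - e2 + e3 + e4
  rw [← key, ← g1, ← g2, ← g3, ← g4]
  ring

/-- Coefficients, extended by zero to negative indices. -/
noncomputable def cz (P : ℤ[X]) (k : ℤ) : ℤ := if k < 0 then 0 else P.coeff k.toNat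

lemma cz_natCast (P : ℤ[X]) (n : ℕ) : cz P n = P.coeff n := by simp [cz]

lemma cz_neg (P : ℤ[X]) {k : ℤ} (hk : k < 0) : cz P k = 0 := by simp [cz, hk]

lemma cz_sub (P Q : ℤ[X]) (k : ℤ) : cz (P - Q) k = cz P k - cz Q k := by
  unfold cz; split_ifs <;> simp

lemma cz_add (P Q : ℤ[X]) (k : ℤ) : cz (P + Q) k = cz P k + cz Q k := by
  unfold cz; split_ifs <;> simp

lemma cz_zero (k : ℤ) : cz 0 k = 0 := by unfold cz; split_ifs <;> simp

lemma cz_sum {ι : Type*} (s : Finset ι) (f : ι → ℤ[X]) (k : ℤ) :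
    cz (∑ i ∈ s, f i) k = ∑ i ∈ s, cz (f i) k := by
  unfold cz; split_ifs <;> simp

lemma cz_mul_X_pow (P : ℤ[X]) (a : ℕ) (k : ℤ) : cz (P * X ^ a) k = cz P (k - a) := by
  unfold cz
  split_ifs with h1 h2 h2
  · rfl
  · omega
  · rw [coeff_mul_X_pow', if_neg (by omega)]
  · rw [coeff_mul_X_pow', if_pos (by omega)]
    congr 1
    omega

lemma cz_expand (P : ℤ[X]) {r : ℕ} (hr : 0 < r) (k : ℤ) :
    cz (expand ℤ r P) k = if (r : ℤ) ∣ k then cz P (k / r) else 0 := by
  unfold cz
  rcases lt_or_ge k 0 with h1 | h1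
  · rw [if_pos h1]
    split_ifs with h2 h3
    · rfl
    · exact absurd (Int.ediv_neg_of_neg_of_pos h1 (by exact_mod_cast hr)) h3
    · rfl
  · rw [if_neg (not_lt.2 h1), if_neg (not_lt.2 (Int.ediv_nonneg h1 (by positivity))),
      coeff_expand hr]
    lift k to ℕ using h1
    simp only [Int.toNat_natCast, Int.natCast_dvd_natCast]
    split_ifs
    · congr 1
    · rfl

/-- `H(k)` is the coefficient of `X^k` in `Φ_{pq}(X^r) / (1 - X^{pq})`. Here `u` is the inverse of
`r` modulo `p q`. -/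
noncomputable def H (p q r : ℕ) (u k : ℤ) : ℤ :=
  if (r : ℤ) * ((k * u) % (p * q)) ≤ k then cz (cyclotomic (p * q) ℤ) ((k * u) % (p * q)) else 0

section kaplan

variable {p q r : ℕ} {u : ℤ}

lemma pq_pos (hp : p.Prime) (hq : q.Prime) : (0 : ℤ) < (p : ℤ) * q := by
  have := hp.pos; have := hq.pos; positivity

lemma emod_bounds (hp : p.Prime) (hq : q.Prime) (k : ℤ) :
    0 ≤ (k * u) % (p * q) ∧ (k * u) % (p * q) < p * q :=
  ⟨Int.emod_nonneg _ (pq_pos hp hq).ne', Int.emod_lt_of_pos _ (pq_pos hp hq)⟩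

/-- `r f(k) ≡ k`. -/
lemma dvd_sub_f (hu : ((p : ℤ) * q) ∣ r * u - 1) (k : ℤ) :
    ((p : ℤ) * q) ∣ r * ((k * u) % (p * q)) - k := by
  have h1 : ((p : ℤ) * q) ∣ (k * u) % (p * q) - k * u := by
    rw [Int.emod_def]
    exact ⟨-(k * u / (p * q)), by ring⟩
  obtain ⟨a, ha⟩ := h1
  obtain ⟨b, hb⟩ := hu
  refine ⟨r * a + k * b, ?_⟩
  linear_combination r * ha + k * hb

lemma H_neg (hp : p.Prime) (hq : q.Prime) {k : ℤ} (hk : k < 0) : H p q r u k = 0 := by
  have := (emod_bounds (u := u) hp hq k).1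
  rw [H, if_neg]
  have : (0 : ℤ) ≤ r * ((k * u) % (p * q)) := by positivity
  omega

lemma cz_phi_pq_of_ge (hp : p.Prime) (hq : q.Prime) {f : ℤ} (hf : (p : ℤ) * q ≤ f) :
    cz (cyclotomic (p * q) ℤ) f = 0 := by
  have h0 := pq_pos hp hq
  rw [cz, if_neg (by omega)]
  apply coeff_eq_zero_of_natDegree_lt
  rw [natDegree_cyclotomic]
  have h1 := Nat.totient_le (p * q)
  have h2 : ((p * q : ℕ) : ℤ) ≤ f := by exact_mod_cast hf
  have h3 : p * q ≤ f.toNat := by omega
  rcases h1.lt_or_eq with h | h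
  · omega
  · rw [h]
    rcases h3.lt_or_eq with h4 | h4
    · exact h4
    · exfalso
      have h5 : (p * q).totient < p * q :=
        Nat.totient_lt _ (lt_of_lt_of_le hp.one_lt (Nat.le_mul_of_pos_right p hq.pos))
      omega

lemma isCoprime_of_dvd (hu : ((p : ℤ) * q) ∣ r * u - 1) : IsCoprime ((p : ℤ) * q) r := by
  obtain ⟨b, hb⟩ := hu
  exact ⟨-b, u, by linear_combination hb⟩

lemma H_sub (hp : p.Prime) (hq : q.Prime) (hr : r.Prime) (hu : ((p : ℤ) * q) ∣ r * u - 1) (k : ℤ) :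
    H p q r u k - H p q r u (k - p * q) = cz (expand ℤ r (cyclotomic (p * q) ℤ)) k := by
  have hN := pq_pos hp hq
  obtain ⟨h0, h1⟩ := emod_bounds (u := u) hp hq k
  have hd := dvd_sub_f (r := r) hu k
  have hcop := isCoprime_of_dvd hu
  have e1 : ((k - p * q) * u) % (p * q) = (k * u) % (p * q) := by
    have : (k - p * q) * u = k * u + (-u) * (p * q) := by ring
    rw [this, Int.add_mul_emod_self_right]
  rw [cz_expand _ hr.pos, H, H, e1]
  set f := (k * u) % ((p : ℤ) * q) with hf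
  obtain ⟨a, ha⟩ := hd
  have hr0 : (0 : ℤ) < r := by exact_mod_cast hr.pos
  by_cases hk : (r : ℤ) * f ≤ k
  · rw [if_pos hk]
    by_cases hk2 : (r : ℤ) * f ≤ k - p * q
    · rw [if_pos hk2, sub_self]
      split_ifs with hrk
      · obtain ⟨g, hg⟩ := hrk
        rw [hg, Int.mul_ediv_cancel_left _ hr0.ne']
        symm
        apply cz_phi_pq_of_ge hp hq
        have h2 : ((p : ℤ) * q) ∣ (g - f) := by
          apply hcop.dvd_of_dvd_mul_left
          exact ⟨-a, by linear_combination -ha - hg⟩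
        have h3 : 0 < g - f := by
          have h4 : (r : ℤ) * 0 < r * (g - f) := by linarith
          exact lt_of_mul_lt_mul_left h4 hr0.le
        have := Int.le_of_dvd h3 h2
        linarith
      · rfl
    · rw [if_neg hk2, sub_zero]
      have ha0 : a = 0 := by
        have h3 : (p : ℤ) * q * a ≤ 0 := by linarith
        have h4 : (p : ℤ) * q * (-1) < p * q * a := by linarith
        have h5 : -1 < a := lt_of_mul_lt_mul_left h4 hN.le
        have h6 : a ≤ 0 := by
          by_contra h7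
          push Not at h7
          have : 0 < (p : ℤ) * q * a := by positivity
          linarith
        omega
      have hk3 : k = r * f := by rw [ha0] at ha; linarith
      rw [if_pos ⟨f, hk3⟩, hk3, Int.mul_ediv_cancel_left _ hr0.ne']
  · rw [if_neg hk, if_neg (by linarith), sub_zero]
    split_ifs with hrk
    · obtain ⟨g, hg⟩ := hrk
      rw [hg, Int.mul_ediv_cancel_left _ hr0.ne']
      symm
      apply cz_neg
      have h2 : ((p : ℤ) * q) ∣ (f - g) := by
        apply hcop.dvd_of_dvd_mul_left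
        exact ⟨a, by linear_combination ha + hg⟩
      have h3 : 0 < f - g := by
        have h4 : (r : ℤ) * 0 < r * (f - g) := by linarith
        exact lt_of_mul_lt_mul_left h4 hr0.le
      have := Int.le_of_dvd h3 h2
      linarith
    · rfl

/-- Kaplan's formula. -/
lemma kaplan (hp : p.Prime) (hq : q.Prime) (hr : r.Prime) (hpq : p ≠ q) (hpr : p ≠ r) (hqr : q ≠ r)
    (hu : ((p : ℤ) * q) ∣ r * u - 1) (n : ℕ) :
    (cyclotomic (p * q * r) ℤ).coeff n =
      ∑ m ∈ range p, (H p q r u ((n : ℤ) - m) - H p q r u ((n : ℤ) - m - q)) := by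
  have hN := pq_pos hp hq
  -- recursion for the coefficients
  have rec1 : ∀ k : ℤ, cz (cyclotomic (p * q * r) ℤ) k - cz (cyclotomic (p * q * r) ℤ) (k - p * q) =
      ∑ m ∈ range p, (cz (expand ℤ r (cyclotomic (p * q) ℤ)) (k - m) -
        cz (expand ℤ r (cyclotomic (p * q) ℤ)) (k - m - q)) := by
    intro k
    have h1 := congrArg (fun P => cz P k) (phi_pqr hp hq hr hpq hpr hqr)
    have h2 : cyclotomic (p * q * r) ℤ * (X ^ (p * q) - 1) =
        cyclotomic (p * q * r) ℤ * X ^ (p * q) - cyclotomic (p * q * r) ℤ := by ring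
    have h3 : expand ℤ r (cyclotomic (p * q) ℤ) * (∑ m ∈ range p, X ^ m) * (X ^ q - 1) =
        (∑ m ∈ range p, expand ℤ r (cyclotomic (p * q) ℤ) * X ^ m) * X ^ q -
        ∑ m ∈ range p, expand ℤ r (cyclotomic (p * q) ℤ) * X ^ m := by
      rw [← Finset.mul_sum]; ring
    simp only [h2, h3, cz_sub, cz_mul_X_pow, cz_sum] at h1
    rw [Finset.sum_sub_distrib]
    have h4 : ∀ m : ℕ, k - (m : ℤ) - q = k - q - m := fun m => by ring
    simp only [h4]
    push_cast at h1
    linear_combination -h1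
  have main : ∀ N : ℕ, ∀ k : ℤ, k < N → cz (cyclotomic (p * q * r) ℤ) k =
      ∑ m ∈ range p, (H p q r u (k - m) - H p q r u (k - m - q)) := by
    intro N
    induction N with
    | zero =>
      intro k hk
      have hk' : k < 0 := by simpa using hk
      rw [cz_neg _ hk']
      symm
      apply Finset.sum_eq_zero
      intro m _
      rw [H_neg hp hq (by omega), H_neg hp hq (by omega), sub_self]
    | succ N ih =>
      intro k hk
      have h1 := rec1 k
      rw [ih (k - p * q) (by push_cast at hk; omega)] at h1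
      rw [sub_eq_iff_eq_add] at h1
      rw [h1, ← Finset.sum_add_distrib]
      apply Finset.sum_congr rfl
      intro m _
      rw [← H_sub hp hq hr hu, ← H_sub hp hq hr hu]
      have e1 : k - (m : ℤ) - p * q = k - p * q - m := by ring
      have e2 : k - (m : ℤ) - q - p * q = k - p * q - m - q := by ring
      rw [e1, e2]
      ring
  rw [← cz_natCast]
  exact main (n + 1) n (by push_cast; omega)

end kaplan

section coords

variable {p q l m : ℕ}

lemma cz_double (a b : ℕ) (F : ℤ) :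
    cz ((∑ x ∈ range a, ((X : ℤ[X]) ^ p) ^ x) * (∑ y ∈ range b, (X ^ q) ^ y)) F =
      ∑ x ∈ range a, ∑ y ∈ range b, if (x : ℤ) * p + y * q = F then 1 else 0 := by
  rw [Finset.sum_mul_sum, cz_sum]
  apply Finset.sum_congr rfl
  intro x _
  rw [cz_sum]
  apply Finset.sum_congr rfl
  intro y _
  rw [← pow_mul, ← pow_mul, ← pow_add, cz]
  rcases lt_or_ge F 0 with h | h
  · rw [if_pos h, if_neg]
    intro h2
    have : (0 : ℤ) ≤ (x : ℤ) * p + y * q := by positivity
    omega
  · rw [if_neg (not_lt.2 h), coeff_X_pow]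
    lift F to ℕ using h
    simp only [Int.toNat_natCast]
    congr 1
    rw [eq_iff_iff]
    constructor
    · intro h; rw [h]; push_cast; ring
    · intro h
      have : x * p + y * q = F := by exact_mod_cast h
      rw [← this]; ring

lemma sum_ind (a b : ℕ) (F x0 y0 : ℤ) (hx0 : 0 ≤ x0) (hy0 : 0 ≤ y0)
    (h1 : ∀ x y : ℕ, x < a → y < b → (x : ℤ) * p + y * q = F → (x : ℤ) = x0 ∧ (y : ℤ) = y0)
    (h2 : x0 < a → y0 < b → x0 * p + y0 * q = F) :
    (∑ x ∈ range a, ∑ y ∈ range b, if (x : ℤ) * p + y * q = F then (1 : ℤ) else 0) =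
      if x0 < a ∧ y0 < b then 1 else 0 := by
  lift x0 to ℕ using hx0
  lift y0 to ℕ using hy0
  split_ifs with h
  · obtain ⟨hx, hy⟩ := h
    have hx' : x0 < a := by exact_mod_cast hx
    have hy' : y0 < b := by exact_mod_cast hy
    rw [Finset.sum_eq_single x0, Finset.sum_eq_single y0, if_pos (h2 hx hy)]
    · intro y hy1 hy2
      rw [if_neg]
      intro h3
      have := (h1 x0 y hx' (Finset.mem_range.1 hy1) h3).2
      exact hy2 (by exact_mod_cast this)
    · intro h3; exact absurd (Finset.mem_range.2 hy') h3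
    · intro x hx1 hx2
      apply Finset.sum_eq_zero
      intro y hy1
      rw [if_neg]
      intro h3
      have := (h1 x y (Finset.mem_range.1 hx1) (Finset.mem_range.1 hy1) h3).1
      exact hx2 (by exact_mod_cast this)
    · intro h3; exact absurd (Finset.mem_range.2 hx') h3
  · apply Finset.sum_eq_zero
    intro x hx1
    apply Finset.sum_eq_zero
    intro y hy1
    rw [if_neg]
    intro h3
    obtain ⟨e1, e2⟩ := h1 x y (Finset.mem_range.1 hx1) (Finset.mem_range.1 hy1) h3
    apply h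
    rw [← e1, ← e2]
    exact ⟨by exact_mod_cast Finset.mem_range.1 hx1, by exact_mod_cast Finset.mem_range.1 hy1⟩

lemma emod_coord (hlq : (l : ℤ) * q + m * p = p * q + 1) {x y F c : ℤ}
    (hy : 0 ≤ y) (hy' : y < p) (h : x * p + y * q = F + c * (p * q)) : (F * l) % p = y := by
  have : F * l = y + p * (-y * m + y * q + x * l - c * q * l) := by
    linear_combination (-(l : ℤ)) * h + y * hlq
  rw [this, Int.add_mul_emod_self_left, Int.emod_eq_of_lt hy hy']

/-- The coordinates of `F` and the coefficient of `Φ_{pq}` at `F`. -/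
lemma coords (hp : p.Prime) (hq : q.Prime) (hpq : p ≠ q) (hl : l ≤ p) (hm : m ≤ q)
    (h : l * q + m * p = p * q + 1) {F : ℤ} (hF0 : 0 ≤ F) (hF : F < p * q) :
    ((F * m) % q * p + (F * l) % p * q = F ∨ (F * m) % q * p + (F * l) % p * q = F + p * q) ∧
    (cz (cyclotomic (p * q) ℤ) F = if (F * m) % q < m ∧ (F * l) % p < l then 1 else
      if (m : ℤ) ≤ (F * m) % q ∧ (l : ℤ) ≤ (F * l) % p then -1 else 0) := by
  have hN := pq_pos hp hq
  have hp0 : (0 : ℤ) < p := by exact_mod_cast hp.pos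
  have hq0 : (0 : ℤ) < q := by exact_mod_cast hq.pos
  have hlq : (l : ℤ) * q + m * p = p * q + 1 := by exact_mod_cast h
  have hlq' : (m : ℤ) * p + l * q = q * p + 1 := by linear_combination hlq
  set x := (F * m) % q with hx
  set y := (F * l) % p with hy
  have hx0 : 0 ≤ x := Int.emod_nonneg _ hq0.ne'
  have hxq : x < q := Int.emod_lt_of_pos _ hq0
  have hy0 : 0 ≤ y := Int.emod_nonneg _ hp0.ne'
  have hyp : y < p := Int.emod_lt_of_pos _ hp0
  have hxd : (q : ℤ) ∣ F * m - x := by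
    rw [hx, Int.emod_def]; exact ⟨F * m / q, by ring⟩
  have hyd : (p : ℤ) ∣ F * l - y := by
    rw [hy, Int.emod_def]; exact ⟨F * l / p, by ring⟩
  obtain ⟨a, ha⟩ := hxd
  obtain ⟨b, hb⟩ := hyd
  have key : x * p + y * q = F + (p * q) * (F - a - b) := by
    linear_combination (-(p : ℤ)) * ha - q * hb + F * hlq
  have hup : x * p + y * q ≤ 2 * (p * q) - p - q := by
    have h1 : x * p ≤ (q - 1) * p := mul_le_mul_of_nonneg_right (by omega) hp0.le
    have h2 : y * q ≤ (p - 1) * q := mul_le_mul_of_nonneg_right (by omega) hq0.le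
    linarith
  have hlow : 0 ≤ x * p + y * q := by positivity
  have hc : F - a - b = 0 ∨ F - a - b = 1 := by
    have h1 : (p * q : ℤ) * (-1) < p * q * (F - a - b) := by linarith
    have h2 : (p * q : ℤ) * (F - a - b) < p * q * 2 := by linarith
    have h3 := lt_of_mul_lt_mul_left h1 hN.le
    have h4 := lt_of_mul_lt_mul_left h2 hN.le
    omega
  have hcase : x * p + y * q = F ∨ x * p + y * q = F + p * q := by
    rcases hc with hc | hc
    · left; rw [key, hc]; ring
    · right; rw [key, hc]; ring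
  refine ⟨hcase, ?_⟩
  have hl' : (l : ℤ) ≤ p := by exact_mod_cast hl
  have hm' : (m : ℤ) ≤ q := by exact_mod_cast hm
  rw [lam_leung hp hq hpq hl hm h, cz_sub]
  have hX : (X : ℤ[X]) * ((∑ x ∈ range (q - m), (X ^ p) ^ x) * ∑ y ∈ range (p - l), (X ^ q) ^ y) =
      ((∑ x ∈ range (q - m), (X ^ p) ^ x) * ∑ y ∈ range (p - l), (X ^ q) ^ y) * X ^ 1 := by
    ring
  rw [hX, cz_mul_X_pow, cz_double, cz_double]
  have first : (∑ x' ∈ range m, ∑ y' ∈ range l,
      if (x' : ℤ) * p + y' * q = F then (1 : ℤ) else 0) = if x < m ∧ y < l then 1 else 0 := by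
    apply sum_ind m l F x y hx0 hy0
    · intro x' y' hx' hy' he
      constructor
      · have := emod_coord (p := q) (q := p) (l := m) (m := l) hlq' (x := y') (y := x') (F := F)
          (c := 0) (by positivity) (by omega) (by linear_combination he)
        exact this.symm
      · have := emod_coord hlq (x := x') (y := y') (F := F)
          (c := 0) (by positivity) (by omega) (by linear_combination he)
        exact this.symm
    · intro h1 h2
      rcases hcase with h3 | h3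
      · exact h3
      · exfalso
        have h4 : x * p ≤ (m - 1) * p := mul_le_mul_of_nonneg_right (by omega) hp0.le
        have h5 : y * q ≤ (l - 1) * q := mul_le_mul_of_nonneg_right (by omega) hq0.le
        have h6 : (1 : ℤ) < p := by exact_mod_cast hp.one_lt
        nlinarith
  have second : (∑ x' ∈ range (q - m), ∑ y' ∈ range (p - l),
      if (x' : ℤ) * p + y' * q = F - (1 : ℕ) then (1 : ℤ) else 0) =
      if (m : ℤ) ≤ x ∧ (l : ℤ) ≤ y then 1 else 0 := by
    by_cases hc2 : (m : ℤ) ≤ x ∧ (l : ℤ) ≤ y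
    · rw [sum_ind (q - m) (p - l) (F - (1 : ℕ)) (x - m) (y - l) (by omega) (by omega)]
      · rw [if_pos hc2, if_pos]
        constructor
        · push_cast [hm]; omega
        · push_cast [hl]; omega
      · intro x' y' hx' hy' he
        push_cast at he
        constructor
        · have := emod_coord (p := q) (q := p) (l := m) (m := l) hlq' (x := y' + l) (y := x' + m)
            (F := F) (c := 1) (by positivity) (by omega) (by linear_combination he + hlq)
          rw [← hx] at this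
          omega
        · have := emod_coord hlq (x := x' + m) (y := y' + l) (F := F)
            (c := 1) (by positivity) (by omega) (by linear_combination he + hlq)
          rw [← hy] at this
          omega
      · intro _ _
        push_cast
        rcases hcase with h3 | h3
        · exfalso
          have h4 : m * p ≤ x * p := mul_le_mul_of_nonneg_right hc2.1 hp0.le
          have h5 : l * q ≤ y * q := mul_le_mul_of_nonneg_right hc2.2 hq0.le
          linarith
        · linear_combination h3 - hlq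
    · rw [if_neg hc2]
      apply Finset.sum_eq_zero
      intro x' hx'
      apply Finset.sum_eq_zero
      intro y' hy'
      rw [if_neg]
      intro he
      push_cast at he
      rw [Finset.mem_range] at hx' hy'
      apply hc2
      constructor
      · have := emod_coord (p := q) (q := p) (l := m) (m := l) hlq' (x := y' + l) (y := x' + m)
          (F := F) (c := 1) (by positivity) (by omega) (by linear_combination he + hlq)
        rw [← hx] at this
        omega
      · have := emod_coord hlq (x := x' + m) (y := y' + l) (F := F)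
          (c := 1) (by positivity) (by omega) (by linear_combination he + hlq)
        rw [← hy] at this
        omega
  rw [first, second]
  by_cases h1 : x < m ∧ y < l
  · rw [if_pos h1, if_neg (by omega), if_pos h1]; ring
  · rw [if_neg h1, if_neg h1]
    split_ifs <;> simp

end coords

section upper

variable {p q r l m : ℕ} {u : ℤ}

lemma thr (hu : ((p : ℤ) * q) ∣ r * u - 1) {k j : ℤ} (hj0 : 0 ≤ j) (hj : j < p * q) :
    ((r : ℤ) * (((k - j) * u) % (p * q)) ≤ k - j) ↔ (r : ℤ) * (((k - j) * u) % (p * q)) ≤ k := by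
  constructor
  · intro h; linarith
  · intro h
    by_contra h2
    push Not at h2
    have h3 := Int.le_of_dvd (by linarith) (dvd_sub_f hu (k - j))
    linarith

lemma abstract_sign {n F F' x y y' A A' : ℤ} (hr : 0 < (r : ℤ)) (hp : 0 < (p : ℤ))
    (hq : 0 < (q : ℤ)) (hlq : (l : ℤ) * q + m * p = p * q + 1)
    (hF0 : 0 ≤ F) (hF1 : F < p * q) (hF0' : 0 ≤ F') (hF1' : F' < p * q)
    (hF : x * p + y * q = F ∨ x * p + y * q = F + p * q)
    (hF' : x * p + y' * q = F' ∨ x * p + y' * q = F' + p * q)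
    (hA : A = if x < m ∧ y < l then 1 else if (m : ℤ) ≤ x ∧ (l : ℤ) ≤ y then -1 else 0)
    (hA' : A' = if x < m ∧ y' < l then 1 else if (m : ℤ) ≤ x ∧ (l : ℤ) ≤ y' then -1 else 0) :
    (((if (r : ℤ) * F ≤ n then A else 0) - (if (r : ℤ) * F' ≤ n then A' else 0)) ≤
      if (y < l ∧ y < y') ∨ ((l : ℤ) ≤ y' ∧ y' < y) then 1 else 0) ∧
    (-((if (r : ℤ) * F ≤ n then A else 0) - (if (r : ℤ) * F' ≤ n then A' else 0)) ≤
      if (y' < l ∧ y' < y) ∨ ((l : ℤ) ≤ y ∧ y < y') then 1 else 0) := by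
  -- exact values
  have ex1 : ∀ {G z : ℤ}, 0 ≤ G → (x * p + z * q = G ∨ x * p + z * q = G + p * q) → x < m →
      z < l → x * p + z * q = G := by
    intro G z hG h hx hz
    rcases h with h | h
    · exact h
    · exfalso
      have h4 : x * p ≤ (m - 1) * p := mul_le_mul_of_nonneg_right (by omega) hp.le
      have h5 : z * q ≤ (l - 1) * q := mul_le_mul_of_nonneg_right (by omega) hq.le
      nlinarith
  have ex2 : ∀ {G z : ℤ}, G < p * q → (x * p + z * q = G ∨ x * p + z * q = G + p * q) →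
      (m : ℤ) ≤ x → (l : ℤ) ≤ z → x * p + z * q = G + p * q := by
    intro G z hG h hx hz
    rcases h with h | h
    · exfalso
      have h4 : m * p ≤ x * p := mul_le_mul_of_nonneg_right hx hp.le
      have h5 : l * q ≤ z * q := mul_le_mul_of_nonneg_right hz hq.le
      linarith
    · exact h
  have mono : ∀ {G G' z z' : ℤ} (c : ℤ), x * p + z * q = G + c → x * p + z' * q = G' + c → z ≤ z' →
      r * G ≤ r * G' := by
    intro G G' z z' c h h' hz
    have h5 : z * q ≤ z' * q := mul_le_mul_of_nonneg_right hz hq.le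
    apply mul_le_mul_of_nonneg_left _ hr.le
    linarith
  have m1 : x < m → y < l → y' < l → y ≤ y' → r * F ≤ r * F' := fun h1 h2 h3 h4 =>
    mono 0 (by rw [add_zero]; exact ex1 hF0 hF h1 h2) (by rw [add_zero]; exact ex1 hF0' hF' h1 h3) h4
  have m2 : x < m → y < l → y' < l → y' ≤ y → r * F' ≤ r * F := fun h1 h2 h3 h4 =>
    mono 0 (by rw [add_zero]; exact ex1 hF0' hF' h1 h3) (by rw [add_zero]; exact ex1 hF0 hF h1 h2) h4
  have m3 : (m : ℤ) ≤ x → (l : ℤ) ≤ y → (l : ℤ) ≤ y' → y ≤ y' → r * F ≤ r * F' :=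
    fun h1 h2 h3 h4 => mono (p * q) (ex2 hF1 hF h1 h2) (ex2 hF1' hF' h1 h3) h4
  have m4 : (m : ℤ) ≤ x → (l : ℤ) ≤ y → (l : ℤ) ≤ y' → y' ≤ y → r * F' ≤ r * F :=
    fun h1 h2 h3 h4 => mono (p * q) (ex2 hF1' hF' h1 h3) (ex2 hF1 hF h1 h2) h4
  clear mono ex1 ex2
  generalize (r : ℤ) * F = a at *
  generalize (r : ℤ) * F' = b at *
  subst hA hA'
  constructor <;> split_ifs <;> omega

lemma term_bound (hp : p.Prime) (hq : q.Prime) (hr : r.Prime) (hpq : p ≠ q) (hl : l ≤ p)
    (hm : m ≤ q) (h : l * q + m * p = p * q + 1) (hu : ((p : ℤ) * q) ∣ r * u - 1) (n : ℤ) {j : ℕ}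
    (hj : j < p) {y u0 : ℤ} (hy : y = ((n - j) * u * l) % p) (hu0 : u0 = u % p) :
    (H p q r u (n - j) - H p q r u (n - j - q)) ≤
      (if (y < l ∧ y < u0) ∨ l + u0 ≤ y then 1 else 0) ∧
    -(H p q r u (n - j) - H p q r u (n - j - q)) ≤
      (if (u0 ≤ y ∧ y < l + u0) ∨ ((l : ℤ) ≤ y ∧ y < u0) then 1 else 0) := by
  have hN := pq_pos hp hq
  have hp0 : (0 : ℤ) < p := by exact_mod_cast hp.pos
  have hq0 : (0 : ℤ) < q := by exact_mod_cast hq.pos
  have hr0 : (0 : ℤ) < r := by exact_mod_cast hr.pos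
  have hlq : (l : ℤ) * q + m * p = p * q + 1 := by exact_mod_cast h
  have hp2 : (2 : ℤ) ≤ p := by exact_mod_cast hp.two_le
  have hq2 : (2 : ℤ) ≤ q := by exact_mod_cast hq.two_le
  have hpqle : (p : ℤ) + q ≤ p * q := by nlinarith
  have hj' : (j : ℤ) < p := by exact_mod_cast hj
  obtain ⟨F0, F1⟩ := emod_bounds (u := u) hp hq (n - j)
  obtain ⟨F0', F1'⟩ := emod_bounds (u := u) hp hq (n - (j + q))
  have hF := coords hp hq hpq hl hm h F0 F1
  have hF' := coords hp hq hpq hl hm h F0' F1'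
  have hjq : n - (j : ℤ) - q = n - (j + q) := by ring
  rw [hjq, H, H]
  simp only [thr hu (k := n) (j := (j : ℤ)) (by positivity) (by nlinarith),
    thr hu (k := n) (j := (j : ℤ) + q) (by positivity) (by linarith)]
  have hFd : ∃ c : ℤ, ((n - j) * u) % (p * q) = (n - j) * u + p * q * c :=
    ⟨-(((n - j) * u) / (p * q)), by rw [Int.emod_def]; ring⟩
  have hFd' : ∃ c : ℤ, ((n - (j + q)) * u) % (p * q) = (n - (j + q)) * u + p * q * c :=
    ⟨-(((n - (j + q)) * u) / (p * q)), by rw [Int.emod_def]; ring⟩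
  set F := ((n - j) * u) % ((p : ℤ) * q) with hFdef
  set F' := ((n - (j + q)) * u) % ((p : ℤ) * q) with hFdef'
  obtain ⟨c, hc⟩ := hFd
  obtain ⟨c', hc'⟩ := hFd'
  have ey : (F * l) % p = y := by
    have : F * l = (n - j) * u * l + p * (q * c * l) := by rw [hc]; ring
    rw [this, Int.add_mul_emod_self_left, hy]
  have ey' : (F' * l) % p = (y - u0) % p := by
    have hd : ∃ d : ℤ, y = (n - j) * u * l + p * d :=
      ⟨-(((n - j) * u * l) / p), by rw [hy, Int.emod_def]; ring⟩
    have he : ∃ e : ℤ, u0 = u + p * e := ⟨-(u / p), by rw [hu0, Int.emod_def]; ring⟩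
    obtain ⟨d, hd⟩ := hd
    obtain ⟨e, he⟩ := he
    have : F' * l = (y - u0) + p * (-d + e + q * c' * l + u * m - u * q) := by
      rw [hc', hd, he]
      linear_combination (-u) * hlq
    rw [this, Int.add_mul_emod_self_left]
  have ex : (F' * m) % q = (F * m) % q := by
    have : F' * m = F * m + q * (p * c' * m - p * c * m - u * m) := by
      rw [hc', hc]
      ring
    rw [this, Int.add_mul_emod_self_left]
  have hy0 : 0 ≤ y := by rw [hy]; exact Int.emod_nonneg _ hp0.ne'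
  have hyp : y < p := by rw [hy]; exact Int.emod_lt_of_pos _ hp0
  have hu00 : 0 ≤ u0 := by rw [hu0]; exact Int.emod_nonneg _ hp0.ne'
  have hu0p : u0 < p := by rw [hu0]; exact Int.emod_lt_of_pos _ hp0
  rw [ex, ey'] at hF'
  rw [ey] at hF
  have hyy : (u0 ≤ y ∧ (y - u0) % p = y - u0) ∨ (y < u0 ∧ (y - u0) % p = y - u0 + p) := by
    rcases le_or_gt u0 y with h1 | h1
    · left; exact ⟨h1, Int.emod_eq_of_lt (by omega) (by omega)⟩
    · right
      refine ⟨h1, ?_⟩
      have : y - u0 = (y - u0 + p) + p * (-1) := by ring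
      rw [this, Int.add_mul_emod_self_left, Int.emod_eq_of_lt (by omega) (by omega)]
      ring
  have main := abstract_sign (n := n) hr0 hp0 hq0 hlq F0 F1 F0' F1' hF.1 hF'.1 hF.2 hF'.2
  generalize (y - u0) % (p : ℤ) = y' at *
  refine ⟨main.1.trans ?_, main.2.trans ?_⟩
  · split_ifs <;> omega
  · split_ifs <;> omega

/-- The upper bound. -/
lemma coeff_le (hp : p.Prime) (hq : q.Prime) (hr : r.Prime) (hpq : p ≠ q) (hpr : p ≠ r)
    (hqr : q ≠ r) (hl : l ≤ p) (hm : m ≤ q) (h : l * q + m * p = p * q + 1) (n : ℕ) :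
    ((cyclotomic (p * q * r) ℤ).coeff n).natAbs ≤ max l (p - l) := by
  have hp0 : (0 : ℤ) < p := by exact_mod_cast hp.pos
  -- an inverse of r
  have hcop : Nat.Coprime r (p * q) := by
    rw [Nat.coprime_mul_iff_right]
    exact ⟨(Nat.coprime_primes hr hp).2 (Ne.symm hpr), (Nat.coprime_primes hr hq).2 (Ne.symm hqr)⟩
  obtain ⟨u, hu⟩ : ∃ u : ℤ, ((p : ℤ) * q) ∣ r * u - 1 := by
    obtain ⟨a, b, hab⟩ := (Nat.isCoprime_iff_coprime.2 hcop)
    refine ⟨a, -b, ?_⟩
    push_cast at hab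
    linear_combination hab
  rw [kaplan hp hq hr hpq hpr hqr hu n]
  set u0 := u % p with hu0
  have hu00 : 0 ≤ u0 := by rw [hu0]; exact Int.emod_nonneg _ hp0.ne'
  have hu0p : u0 < p := by rw [hu0]; exact Int.emod_lt_of_pos _ hp0
  -- injectivity
  have hlq : (l : ℤ) * q + m * p = p * q + 1 := by exact_mod_cast h
  have hinj : ∀ i j : ℕ, i < p → j < p →
      (((n : ℤ) - i) * u * l) % p = (((n : ℤ) - j) * u * l) % p → i = j := by
    intro i j hi hj hij
    have h1 : (p : ℤ) ∣ ((n : ℤ) - i) * u * l - ((n : ℤ) - j) * u * l :=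
      (Int.emod_emod_of_dvd _ (dvd_refl _) ▸ Int.emod_eq_emod_iff_emod_sub_eq_zero.1 hij |>
        Int.dvd_of_emod_eq_zero)
    have h2 : (p : ℤ) ∣ (j : ℤ) - i := by
      obtain ⟨c, hc⟩ := h1
      obtain ⟨d, hd⟩ := hu
      refine ⟨c * q * r - (j - i) * ((-m + q) * u * r + q * d), ?_⟩
      linear_combination (q * r) * hc - (j - i) * u * r * hlq - (j - i) * hd
    obtain ⟨c, hc⟩ := h2
    have hc0 : c = 0 := by
      have h3 : (p : ℤ) * c < p * 1 := by rw [← hc]; omega
      have h4 : (p : ℤ) * (-1) < p * c := by rw [← hc]; omega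
      have h5 := lt_of_mul_lt_mul_left h3 hp0.le
      have h6 := lt_of_mul_lt_mul_left h4 hp0.le
      omega
    rw [hc0] at hc
    omega
  have hcount : ∀ S : Finset ℤ, (∑ j ∈ range p, if (((n : ℤ) - j) * u * l) % p ∈ S then (1 : ℤ) else 0)
      ≤ S.card := by
    intro S
    rw [← Finset.sum_filter, Finset.sum_const, nsmul_eq_mul, mul_one, Nat.cast_le]
    apply Finset.card_le_card_of_injOn (fun j : ℕ => (((n : ℤ) - j) * u * l) % p)
    · intro j hj
      exact (Finset.mem_filter.1 hj).2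
    · intro i hi j hj hij
      exact hinj i j (Finset.mem_range.1 (Finset.mem_filter.1 hi).1)
        (Finset.mem_range.1 (Finset.mem_filter.1 hj).1) hij
  have hyb : ∀ j : ℕ, 0 ≤ (((n : ℤ) - j) * u * l) % p ∧ (((n : ℤ) - j) * u * l) % p < p :=
    fun j => ⟨Int.emod_nonneg _ hp0.ne', Int.emod_lt_of_pos _ hp0⟩
  have hl' : (l : ℤ) ≤ p := by exact_mod_cast hl
  have b1 : ∑ j ∈ range p, (H p q r u ((n : ℤ) - j) - H p q r u ((n : ℤ) - j - q)) ≤
      (Ico 0 (min (l : ℤ) u0) ∪ Ico ((l : ℤ) + u0) p).card := by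
    refine le_trans (Finset.sum_le_sum fun j hj => ?_) (hcount _)
    refine (term_bound hp hq hr hpq hl hm h hu n (Finset.mem_range.1 hj) rfl hu0).1.trans ?_
    have := hyb j
    simp only [Finset.mem_union, Finset.mem_Ico]
    split_ifs <;> omega
  have b2 : -∑ j ∈ range p, (H p q r u ((n : ℤ) - j) - H p q r u ((n : ℤ) - j - q)) ≤
      (Ico u0 (min (l + u0 : ℤ) p) ∪ Ico (l : ℤ) u0).card := by
    rw [← Finset.sum_neg_distrib]
    refine le_trans (Finset.sum_le_sum fun j hj => ?_) (hcount _)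
    refine (term_bound hp hq hr hpq hl hm h hu n (Finset.mem_range.1 hj) rfl hu0).2.trans ?_
    have := hyb j
    simp only [Finset.mem_union, Finset.mem_Ico]
    split_ifs <;> omega
  have c1 := Finset.card_union_le (Ico 0 (min (l : ℤ) u0)) (Ico ((l : ℤ) + u0) p)
  have c2 := Finset.card_union_le (Ico u0 (min (l + u0 : ℤ) p)) (Ico (l : ℤ) u0)
  rw [Int.card_Ico, Int.card_Ico] at c1 c2
  omega

end upper

section lower

variable {p q r l m : ℕ} {u : ℤ}

lemma f_eq (hu : ((p : ℤ) * q) ∣ r * u - 1) {t i σ w F : ℤ} (hσ : ((p : ℤ) * q) ∣ σ * u - w)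
    (hF : t - i * u + w = F) (hF0 : 0 ≤ F) (hF1 : F < p * q) :
    ((r * t - i + σ) * u) % (p * q) = F := by
  obtain ⟨c, hc⟩ := hu
  obtain ⟨d, hd⟩ := hσ
  have : (r * t - i + σ) * u = F + (p * q) * (c * t + d) := by
    rw [← hF]
    linear_combination t * hc + hd
  rw [this, Int.add_mul_emod_self_left, Int.emod_eq_of_lt hF0 hF1]

lemma H_one (hp : p.Prime) (hq : q.Prime) (hr : r.Prime) (hpq : p ≠ q) (hl : l < p) (hm : m ≤ q)
    (h : l * q + m * p = p * q + 1) (hu : ((p : ℤ) * q) ∣ r * u - 1) (hu0 : 0 < u) (huq : u < q)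
    {d : ℤ} (hd : q - u = p * d) (hwin : ((l : ℤ) - 1) * (q - u) ≤ (m - 1) * p)
    {i : ℤ} (hi0 : 0 ≤ i) (hi : i < l) :
    H p q r u (r * ((l - 1) * q) - i) = 1 := by
  have hN := pq_pos hp hq
  have hp0 : (0 : ℤ) < p := by exact_mod_cast hp.pos
  have hq0 : (0 : ℤ) < q := by exact_mod_cast hq.pos
  have hr0 : (0 : ℤ) < r := by exact_mod_cast hr.pos
  have hl' : (l : ℤ) < p := by exact_mod_cast hl
  have hm' : (m : ℤ) ≤ q := by exact_mod_cast hm
  have hlq : (l : ℤ) * q + m * p = p * q + 1 := by exact_mod_cast h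
  have hlq' : (m : ℤ) * p + l * q = q * p + 1 := by linear_combination hlq
  have hd0 : 0 ≤ d := by
    have h1 : (p : ℤ) * 0 < p * d := by linarith
    exact (lt_of_mul_lt_mul_left h1 hp0.le).le
  have hF0 : 0 ≤ ((l : ℤ) - 1) * q - i * u := by
    have : i * u ≤ (l - 1) * q := mul_le_mul (by omega) huq.le hu0.le (by omega)
    linarith
  have hF1 : ((l : ℤ) - 1) * q - i * u < p * q := by
    have h1 : ((l : ℤ) - 1) * q < p * q := mul_lt_mul_of_pos_right (by omega) hq0
    have h2 : 0 ≤ i * u := by positivity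
    linarith
  have hf := f_eq (σ := 0) (w := 0) (t := ((l : ℤ) - 1) * q) (i := i) hu (by simp) (add_zero _) hF0 hF1
  rw [add_zero] at hf
  rw [H, hf]
  have hx1 : i * d ≤ m - 1 := by
    have h1 : p * (i * d) ≤ p * (m - 1) := by
      calc p * (i * d) = i * (q - u) := by rw [hd]; ring
        _ ≤ (l - 1) * (q - u) := mul_le_mul_of_nonneg_right (by omega) (by linarith)
        _ ≤ (m - 1) * p := hwin
        _ = p * (m - 1) := by ring
    exact le_of_mul_le_mul_left h1 hp0
  have hid : 0 ≤ i * d := by positivity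
  have ey : ((((l : ℤ) - 1) * q - i * u) * l) % p = l - 1 - i := by
    apply emod_coord hlq (x := i * d) (y := l - 1 - i) (c := 0) (by omega) (by omega)
    linear_combination -i * hd
  have ex : ((((l : ℤ) - 1) * q - i * u) * m) % q = i * d := by
    apply emod_coord (p := q) (q := p) (l := m) (m := l) hlq' (x := l - 1 - i) (y := i * d) (c := 0)
      (by omega) (by omega)
    linear_combination -i * hd
  have hc := (coords hp hq hpq hl.le hm h hF0 hF1).2
  rw [ex, ey, if_pos ⟨by omega, by omega⟩] at hc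
  rw [hc, if_pos]
  have hu1 : 1 ≤ u := hu0
  have hr1 : (1 : ℤ) ≤ r := hr0
  have h1 : 1 ≤ r * u := by nlinarith
  have h2 : i * 1 ≤ i * (r * u) := mul_le_mul_of_nonneg_left h1 hi0
  linarith

lemma H_zero1 (hq : q.Prime) (hr : r.Prime) (hl : l < p)
    (hu : ((p : ℤ) * q) ∣ r * u - 1) (hu0 : 0 < u) (huq : u < q)
    {i : ℤ} (hi0 : i < 0) (hi : -((p : ℤ) - l) ≤ i) (hl1 : 1 ≤ l) :
    H p q r u (r * ((l - 1) * q) - i) = 0 := by
  have hq0 : (0 : ℤ) < q := by exact_mod_cast hq.pos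
  have hr2 : (2 : ℤ) ≤ r := by exact_mod_cast hr.two_le
  have hl' : (l : ℤ) < p := by exact_mod_cast hl
  have hl1' : (1 : ℤ) ≤ l := by exact_mod_cast hl1
  have hiu : 0 < (-i) * u := by
    have : 0 < -i := by omega
    positivity
  have hF0 : 0 ≤ ((l : ℤ) - 1) * q - i * u := by
    have h2 : 0 ≤ ((l : ℤ) - 1) * q := mul_nonneg (by omega) hq0.le
    linarith
  have hF1 : ((l : ℤ) - 1) * q - i * u < p * q := by
    have h2 : (-i) * u ≤ (p - l) * q := mul_le_mul (by omega) huq.le hu0.le (by omega)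
    linarith
  have hf := f_eq (σ := 0) (w := 0) (t := ((l : ℤ) - 1) * q) (i := i) hu (by simp) (add_zero _) hF0 hF1
  rw [add_zero] at hf
  rw [H, hf, if_neg]
  push Not
  have hru : 1 < (r : ℤ) * u := by nlinarith
  have h1 : (-i) * 1 < (-i) * (r * u) := mul_lt_mul_of_pos_left hru (by omega)
  linarith

lemma H_zero2 (hp : p.Prime) (hq : q.Prime) (hpq : p ≠ q) (hl : l < p) (hm : m ≤ q)
    (h : l * q + m * p = p * q + 1)
    (hu : ((p : ℤ) * q) ∣ r * u - 1) (hu0 : 0 < u) (huq : u < q) (hrpq : p + q < r)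
    {d : ℤ} (hd : q - u = p * d)
    {s σ : ℤ} (hs : (l - 1) * u < s * q) (hs2 : s ≤ p - l) (hl1 : 1 ≤ l) (hpl : p ≤ 2 * l)
    (hσ : ((p : ℤ) * q) ∣ σ * u - s * q) (hσ2 : σ ≤ q)
    {i : ℤ} (hi0 : i < l) (hi : -((p : ℤ) - l) ≤ i) :
    H p q r u (r * ((l - 1) * q) - i + σ) = 0 := by
  have hN := pq_pos hp hq
  have hp0 : (0 : ℤ) < p := by exact_mod_cast hp.pos
  have hq0 : (0 : ℤ) < q := by exact_mod_cast hq.pos
  have hr1 : (p : ℤ) + q < r := by exact_mod_cast hrpq
  have hl' : (l : ℤ) < p := by exact_mod_cast hl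
  have hl1' : (1 : ℤ) ≤ l := by exact_mod_cast hl1
  have hlq : (l : ℤ) * q + m * p = p * q + 1 := by exact_mod_cast h
  have hd0 : 0 ≤ d := by
    have h1 : (p : ℤ) * 0 < p * d := by linarith
    exact (lt_of_mul_lt_mul_left h1 hp0.le).le
  have hFt : ((l : ℤ) - 1) * q < ((l : ℤ) - 1) * q - i * u + s * q := by
    have : i * u ≤ (l - 1) * u := mul_le_mul_of_nonneg_right (by omega) hu0.le
    linarith
  have ht0 : 0 ≤ ((l : ℤ) - 1) * q := mul_nonneg (by omega) hq0.le
  rcases lt_or_ge (((l : ℤ) - 1) * q - i * u + s * q) (p * q) with hF1 | hF1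
  · have hf := f_eq (σ := σ) (w := s * q) (t := ((l : ℤ) - 1) * q) (i := i) hu hσ rfl
      (by linarith) hF1
    rw [H, hf, if_neg]
    push Not
    have h1 : ((l : ℤ) - 1) * q + 1 ≤ ((l : ℤ) - 1) * q - i * u + s * q := by omega
    have h2 : r * (((l : ℤ) - 1) * q + 1) ≤ r * (((l : ℤ) - 1) * q - i * u + s * q) :=
      mul_le_mul_of_nonneg_left h1 (by linarith)
    linarith
  · -- wrap around
    have hi1 : i < 0 := by
      by_contra hcon
      push Not at hcon
      have h1 : 0 ≤ i * u := by positivity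
      have h2 : s * q ≤ (p - l) * q := mul_le_mul_of_nonneg_right hs2 hq0.le
      nlinarith
    have hF2 : ((l : ℤ) - 1) * q - i * u + s * q - p * q < p * q := by
      have h1 : (-i) * u ≤ (p - l) * q := mul_le_mul (by omega) huq.le hu0.le (by omega)
      have h2 : s * q ≤ (p - l) * q := mul_le_mul_of_nonneg_right hs2 hq0.le
      nlinarith
    have hf := f_eq (σ := σ) (w := s * q - p * q) (t := ((l : ℤ) - 1) * q) (i := i)
      (F := ((l : ℤ) - 1) * q - i * u + s * q - p * q) hu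
      (by
        obtain ⟨e, he⟩ := hσ
        exact ⟨e + 1, by linear_combination he⟩) (by ring) (by linarith) hF2
    rw [H, hf]
    have hidp : 0 < (-i) * (q - u) := mul_pos (by omega) (by omega)
    have heq : ((l : ℤ) - 1) * q - i * u + s * q - p * q = (l - 1 + s - i - p) * q - (-i) * (q - u) := by
      ring
    have hy0 : 0 < l - 1 + s - i - (p : ℤ) := by
      have h1 : 0 < (l - 1 + s - i - (p : ℤ)) * q := by linarith
      exact (mul_pos_iff_of_pos_right hq0).1 h1
    have hyl : l - 1 + s - i - (p : ℤ) < l := by omega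
    have ey : ((((l : ℤ) - 1) * q - i * u + s * q - p * q) * l) % p = l - 1 + s - i - p := by
      apply emod_coord hlq (x := i * d) (y := l - 1 + s - i - p) (c := 0) (by omega) (by omega)
      linear_combination (-i) * hd
    have hc := coords hp hq hpq hl.le hm h (F := ((l : ℤ) - 1) * q - i * u + s * q - p * q)
      (by linarith) hF2
    rw [ey] at hc
    have hx : ¬ (((((l : ℤ) - 1) * q - i * u + s * q - p * q) * m) % q < m ∧
        l - 1 + s - i - (p : ℤ) < l) := by
      rintro ⟨h1, h2⟩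
      have hx0 : 0 ≤ ((((l : ℤ) - 1) * q - i * u + s * q - p * q) * m) % q :=
        Int.emod_nonneg _ hq0.ne'
      rcases hc.1 with h3 | h3
      · have : 0 ≤ ((((l : ℤ) - 1) * q - i * u + s * q - p * q) * m) % q * p := by positivity
        linarith
      · have h4 : ((((l : ℤ) - 1) * q - i * u + s * q - p * q) * m) % q * p ≤ (m - 1) * p :=
          mul_le_mul_of_nonneg_right (by omega) hp0.le
        have h5 : (l - 1 + s - i - (p : ℤ)) * q ≤ (l - 1) * q :=
          mul_le_mul_of_nonneg_right (by omega) hq0.le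
        nlinarith
    have hval := hc.2
    rw [if_neg hx, if_neg (by rintro ⟨_, h2⟩; omega)] at hval
    rw [hval, ite_self]

end lower

section final

lemma exists_coeff_aux {p q r l m : ℕ} {u : ℤ} (hp : p.Prime) (hq : q.Prime) (hr : r.Prime)
    (hpq : p < q) (hl1 : 1 ≤ l) (hl : l < p) (hm : m ≤ q) (hpl : p ≤ 2 * l)
    (h : l * q + m * p = p * q + 1)
    (hu : ((p : ℤ) * q) ∣ r * u - 1) (hu0 : 0 < u) (huq : u < q) (hrpq : p + q < r)
    {d : ℤ} (hd : q - u = p * d) (hwin : ((l : ℤ) - 1) * (q - u) ≤ (m - 1) * p)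
    {s : ℤ} (hs : (l - 1) * u < s * q) (hs2 : s ≤ p - l)
    (hσ : ((p : ℤ) * q) ∣ q * u - s * q ∨ ((p : ℤ) * q) ∣ (-q) * u - s * q) :
    ∃ n : ℕ, ((cyclotomic (p * q * r) ℤ).coeff n).natAbs = l := by
  have hl' : (l : ℤ) < p := by exact_mod_cast hl
  have hl1' : (1 : ℤ) ≤ l := by exact_mod_cast hl1
  have hq0 : (0 : ℤ) < q := by exact_mod_cast hq.pos
  have val : ∀ j ∈ range p, H p q r u (r * ((l - 1) * q) - (j - (p - l))) =
      if p - l ≤ j then 1 else 0 := by
    intro j hj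
    rw [Finset.mem_range] at hj
    split_ifs with hj2
    · exact H_one hp hq hr hpq.ne hl hm h hu hu0 huq hd hwin (by omega) (by omega)
    · exact H_zero1 hq hr hl hu hu0 huq (by omega) (by omega) hl1
  have sum1 : (∑ j ∈ range p, if p - l ≤ j then (1 : ℤ) else 0) = l := by
    rw [← Finset.sum_filter, Finset.sum_const, nsmul_eq_mul, mul_one]
    congr 1
    have : (range p).filter (fun j => p - l ≤ j) = Ico (p - l) p := by
      ext j; simp only [Finset.mem_filter, Finset.mem_range, Finset.mem_Ico]; omega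
    rw [this, Nat.card_Ico]; omega
  rcases hσ with hσ | hσ
  · refine ⟨r * ((l - 1) * q) + (p - l) + q, ?_⟩
    rw [kaplan hp hq hr hpq.ne (by omega) (by omega) hu]
    have : ∀ j ∈ range p, (H p q r u (((r * ((l - 1) * q) + (p - l) + q : ℕ) : ℤ) - j) -
        H p q r u (((r * ((l - 1) * q) + (p - l) + q : ℕ) : ℤ) - j - q)) =
        -(if p - l ≤ j then (1 : ℤ) else 0) := by
      intro j hj
      rw [← val j hj]
      rw [Finset.mem_range] at hj
      have z := H_zero2 (i := (j : ℤ) - (p - l)) hp hq hpq.ne hl hm h hu hu0 huq hrpq hd hs hs2 hl1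
        hpl hσ le_rfl (by omega) (by omega)
      have e1 : (((r * ((l - 1) * q) + (p - l) + q : ℕ) : ℤ) - j) =
          r * (((l : ℤ) - 1) * q) - ((j : ℤ) - (p - l)) + q := by
        push_cast [hl1, hl.le]; ring
      have e2 : (((r * ((l - 1) * q) + (p - l) + q : ℕ) : ℤ) - j - q) =
          r * (((l : ℤ) - 1) * q) - ((j : ℤ) - (p - l)) := by
        push_cast [hl1, hl.le]; ring
      rw [e2, e1, z, zero_sub]
    rw [Finset.sum_congr rfl this, Finset.sum_neg_distrib, sum1]
    simp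
  · refine ⟨r * ((l - 1) * q) + (p - l), ?_⟩
    rw [kaplan hp hq hr hpq.ne (by omega) (by omega) hu]
    have : ∀ j ∈ range p, (H p q r u (((r * ((l - 1) * q) + (p - l) : ℕ) : ℤ) - j) -
        H p q r u (((r * ((l - 1) * q) + (p - l) : ℕ) : ℤ) - j - q)) =
        (if p - l ≤ j then (1 : ℤ) else 0) := by
      intro j hj
      rw [← val j hj]
      rw [Finset.mem_range] at hj
      have z := H_zero2 (i := (j : ℤ) - (p - l)) hp hq hpq.ne hl hm h hu hu0 huq hrpq hd hs hs2 hl1
        hpl hσ (by omega) (by omega) (by omega)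
      have e1 : (((r * ((l - 1) * q) + (p - l) : ℕ) : ℤ) - j) =
          r * (((l : ℤ) - 1) * q) - ((j : ℤ) - (p - l)) := by
        push_cast [hl1, hl.le]; ring
      have e2 : (((r * ((l - 1) * q) + (p - l) : ℕ) : ℤ) - j - q) =
          r * (((l : ℤ) - 1) * q) - ((j : ℤ) - (p - l)) + (-q) := by
        push_cast [hl1, hl.le]; ring
      rw [e2, e1, z, sub_zero]
    rw [Finset.sum_congr rfl this, sum1]
    simp

/-- A prime `r` with `r u = 1` modulo `p q`. -/
lemma exists_r {p q : ℕ} (hp : p.Prime) (hq : q.Prime) {u : ℤ} (hpu : ¬ (p : ℤ) ∣ u)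
    (hqu : ¬ (q : ℤ) ∣ u) : ∃ r : ℕ, r.Prime ∧ p + q < r ∧ ((p : ℤ) * q) ∣ r * u - 1 := by
  have hN : NeZero (p * q) := ⟨(Nat.mul_pos hp.pos hq.pos).ne'⟩
  have hcop : IsCoprime u ((p * q : ℕ) : ℤ) := by
    push_cast
    apply IsCoprime.mul_right
    · exact ((Nat.prime_iff_prime_int.1 hp).coprime_iff_not_dvd.2 hpu).symm
    · exact ((Nat.prime_iff_prime_int.1 hq).coprime_iff_not_dvd.2 hqu).symm
  obtain ⟨a, b, hab⟩ := hcop
  have h1 : (a : ZMod (p * q)) * (u : ZMod (p * q)) = 1 := by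
    have := congrArg (fun z : ℤ => (z : ZMod (p * q))) hab
    simp only [Int.cast_add, Int.cast_mul, Int.cast_natCast, Int.cast_one] at this
    rw [ZMod.natCast_self, mul_zero, add_zero] at this
    exact this
  have hunit : IsUnit (a : ZMod (p * q)) := IsUnit.of_mul_eq_one _ h1
  obtain ⟨r, hr1, hr2, hr3⟩ := Nat.forall_exists_prime_gt_and_eq_mod hunit (p + q)
  refine ⟨r, hr2, hr1, ?_⟩
  have h2 : ((r * u - 1 : ℤ) : ZMod (p * q)) = 0 := by
    push_cast
    rw [hr3, h1, sub_self]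
  have h3 := (ZMod.intCast_zmod_eq_zero_iff_dvd _ _).1 h2
  push_cast at h3
  exact h3

/-- The arithmetic of the window. -/
lemma exists_u {p q k l : ℕ} (hp : p.Prime) (hk : 1 ≤ k)
    (hp0 : (2 * k + 1) ^ 2 + 4 ≤ p) (hq0 : p ^ 2 ≤ q) (hmod : (2 * k + 1) * q ≡ 2 [MOD p])
    (hl : 2 * l = p + 2 * k + 1) :
    ∃ (m : ℕ) (u d s : ℤ), m ≤ q ∧ l * q + m * p = p * q + 1 ∧ 0 < u ∧ u < q ∧ q - u = p * d ∧
      ((l : ℤ) - 1) * (q - u) ≤ (m - 1) * p ∧ (l - 1) * u < s * q ∧ s ≤ p - l ∧
      (((p : ℤ) * q) ∣ q * u - s * q ∨ ((p : ℤ) * q) ∣ (-q) * u - s * q) := by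
  have hk' : (1 : ℤ) ≤ k := by exact_mod_cast hk
  have hp0' : (2 * (k : ℤ) + 1) ^ 2 + 4 ≤ p := by exact_mod_cast hp0
  have hq0' : (p : ℤ) ^ 2 ≤ q := by exact_mod_cast hq0
  have hl' : 2 * (l : ℤ) = p + 2 * k + 1 := by exact_mod_cast hl
  have hppos : (0 : ℤ) < p := by exact_mod_cast hp.pos
  have hqpos : (0 : ℤ) < q := by nlinarith
  have hp13 : (13 : ℤ) ≤ p := by nlinarith
  have hlp : (l : ℤ) < p := by nlinarith
  have hl2 : (2 : ℤ) ≤ l := by omega
  obtain ⟨e, he⟩ := (Nat.modEq_iff_dvd.1 hmod.symm)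
  push_cast at he
  -- the inverse of q
  obtain ⟨g, hg⟩ : (p : ℤ) ∣ l * q - 1 := by
    have h1 : (p : ℤ) ∣ 2 * (l * q - 1) := ⟨q + e, by linear_combination q * hl' + he⟩
    rcases (Nat.prime_iff_prime_int.1 hp).dvd_or_dvd h1 with h2 | h2
    · exfalso
      have := Int.le_of_dvd (by norm_num) h2
      omega
    · exact h2
  have hg0 : 0 ≤ g := by
    have h1 : (p : ℤ) * (-1) < p * g := by
      rw [← hg]
      have : 0 < (l : ℤ) * q := by positivity
      linarith
    have := lt_of_mul_lt_mul_left h1 hppos.le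
    omega
  have hgq : g < q := by
    have h1 : (p : ℤ) * g < p * q := by
      rw [← hg]
      have : (l : ℤ) * q < p * q := mul_lt_mul_of_pos_right hlp hqpos
      linarith
    exact lt_of_mul_lt_mul_left h1 hppos.le
  -- the residue of q
  set ρ := (q : ℤ) % p with hρ
  have hρ0 : 0 ≤ ρ := Int.emod_nonneg _ hppos.ne'
  have hρp : ρ < p := Int.emod_lt_of_pos _ hppos
  obtain ⟨w, hw⟩ : ∃ w : ℤ, (q : ℤ) = ρ + p * w := ⟨q / p, by rw [hρ, Int.emod_add_mul_ediv]⟩
  have hcρ : (2 * (k : ℤ) + 1) * ρ - 2 = p * (e - (2 * k + 1) * w) := by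
    linear_combination he - (2 * (k : ℤ) + 1) * hw
  set e' := e - (2 * (k : ℤ) + 1) * w with he'
  obtain ⟨s, hs1, hs2, hs3⟩ : ∃ s : ℤ, 2 * (k : ℤ) + 2 ≤ s ∧ s ≤ p - l ∧
      ((p : ℤ) ∣ q - s ∨ (p : ℤ) ∣ q + s) := by
    by_cases hA : 2 * ρ ≤ p - (2 * k + 1)
    · refine ⟨ρ, ?_, by omega, Or.inl ⟨w, by linear_combination hw⟩⟩
      by_contra hcon
      push Not at hcon
      have h1 : (2 * (k : ℤ) + 1) * ρ ≤ (2 * (k : ℤ) + 1) * (2 * k + 1) :=
        mul_le_mul_of_nonneg_left (by omega) (by omega)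
      have h2 : (p : ℤ) * e' < p * 1 := by rw [← hcρ]; nlinarith
      have h3 := lt_of_mul_lt_mul_left h2 hppos.le
      have h4 : (p : ℤ) * (-1) < p * e' := by rw [← hcρ]; nlinarith
      have h5 := lt_of_mul_lt_mul_left h4 hppos.le
      have h6 : e' = 0 := by omega
      rw [h6, mul_zero] at hcρ
      rcases hρ0.eq_or_lt with h7 | h7
      · rw [← h7] at hcρ; omega
      · have : (2 * (k : ℤ) + 1) * 1 ≤ (2 * (k : ℤ) + 1) * ρ :=
          mul_le_mul_of_nonneg_left (by omega) (by omega)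
        omega
    · by_cases hB : p + (2 * k + 1) ≤ 2 * ρ
      · refine ⟨p - ρ, ?_, by omega, Or.inr ⟨1 + w, by linear_combination hw⟩⟩
        by_contra hcon
        push Not at hcon
        have h0 : (2 * (k : ℤ) + 1) * (p - ρ) + 2 = p * ((2 * k + 1) - e') := by
          linear_combination -hcρ
        have h1 : (2 * (k : ℤ) + 1) * (p - ρ) ≤ (2 * (k : ℤ) + 1) * (2 * k + 1) :=
          mul_le_mul_of_nonneg_left (by omega) (by omega)
        have h2 : (p : ℤ) * ((2 * k + 1) - e') < p * 1 := by rw [← h0]; nlinarith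
        have h3 := lt_of_mul_lt_mul_left h2 hppos.le
        have h4 : (p : ℤ) * 0 < p * ((2 * k + 1) - e') := by
          rw [← h0]
          have : 0 ≤ (2 * (k : ℤ) + 1) * (p - ρ) := mul_nonneg (by omega) (by omega)
          linarith
        have h5 := lt_of_mul_lt_mul_left h4 hppos.le
        omega
      · exfalso
        have h0 : (2 * (k : ℤ) + 1) * (2 * ρ - p) - 4 = p * (2 * e' - (2 * k + 1)) := by
          linear_combination 2 * hcρ
        have h1 : (2 * (k : ℤ) + 1) * (2 * ρ - p) ≤ (2 * (k : ℤ) + 1) * (2 * k) :=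
          mul_le_mul_of_nonneg_left (by omega) (by omega)
        have h1' : (2 * (k : ℤ) + 1) * (-(2 * k)) ≤ (2 * (k : ℤ) + 1) * (2 * ρ - p) :=
          mul_le_mul_of_nonneg_left (by omega) (by omega)
        have h2 : (p : ℤ) * (2 * e' - (2 * k + 1)) < p * 1 := by rw [← h0]; nlinarith
        have h3 := lt_of_mul_lt_mul_left h2 hppos.le
        have h4 : (p : ℤ) * (-1) < p * (2 * e' - (2 * k + 1)) := by rw [← h0]; nlinarith
        have h5 := lt_of_mul_lt_mul_left h4 hppos.le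
        omega
  -- the choice of u
  have hl10 : (0 : ℤ) < l - 1 := by omega
  set B := (s * q - 1) / ((l : ℤ) - 1) with hB
  have hB1 : B * (l - 1) ≤ s * q - 1 := Int.ediv_mul_le _ hl10.ne'
  have hB2 : s * q - 1 < (B + 1) * (l - 1) := Int.lt_ediv_add_one_mul_self _ hl10
  set τ := (B - q) % p with hτ
  have hτ0 : 0 ≤ τ := Int.emod_nonneg _ hppos.ne'
  have hτp : τ < p := Int.emod_lt_of_pos _ hppos
  obtain ⟨ν, hν⟩ : ∃ ν : ℤ, B - q = τ + p * ν := ⟨(B - q) / p, by rw [hτ, Int.emod_add_mul_ediv]⟩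
  have hu1 : (l - 1) * (B - τ) ≤ s * q - 1 := by
    have : 0 ≤ ((l : ℤ) - 1) * τ := mul_nonneg hl10.le hτ0
    linarith
  have hu2 : 2 * k * q + p - 1 ≤ (l - 1) * (B - τ) := by
    have h1 : ((l : ℤ) - 1) * τ ≤ (l - 1) * (p - 1) := mul_le_mul_of_nonneg_left (by omega) hl10.le
    have h2 : (2 * (k : ℤ) + 2) * q ≤ s * q := mul_le_mul_of_nonneg_right hs1 hqpos.le
    have h3 : (l : ℤ) * p ≤ p * p := mul_le_mul_of_nonneg_right hlp.le hppos.le
    nlinarith
  have hupos : 0 < B - τ := by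
    have h1 : ((l : ℤ) - 1) * 0 < (l - 1) * (B - τ) := by
      have : 0 < 2 * (k : ℤ) * q := by positivity
      linarith
    exact lt_of_mul_lt_mul_left h1 hl10.le
  have hultq : B - τ < q := by
    have h1 : ((l : ℤ) - 1) * (B - τ) < (l - 1) * q := by
      have : s * q ≤ (l - 1) * q := mul_le_mul_of_nonneg_right (by omega) hqpos.le
      linarith
    exact lt_of_mul_lt_mul_left h1 hl10.le
  refine ⟨(q - g).toNat, B - τ, -ν, s, by omega, ?_, hupos, hultq, by linear_combination -hν, ?_,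
    by linarith, hs2, ?_⟩
  · zify
    rw [Int.toNat_of_nonneg (by omega)]
    linear_combination hg
  · rw [Int.toNat_of_nonneg (by omega)]
    have h1 : ((q : ℤ) - g - 1) * p = p * q + 1 - l * q - p := by linear_combination hg
    have h2 : 2 * ((l : ℤ) * q) = p * q + 2 * k * q + q := by linear_combination q * hl'
    rw [h1, mul_sub]
    linarith
  · rcases hs3 with ⟨z, hz⟩ | ⟨z, hz⟩
    · left
      exact ⟨z + ν, by linear_combination q * hz + q * hν⟩
    · right
      exact ⟨-(z + ν), by linear_combination (-q) * hz - q * hν⟩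

/-- The height of `Φ_n`. -/
noncomputable def height (n : ℕ) : ℕ :=
  (range ((cyclotomic n ℤ).natDegree + 1)).sup fun j => ((cyclotomic n ℤ).coeff j).natAbs

lemma le_height (n j : ℕ) : ((cyclotomic n ℤ).coeff j).natAbs ≤ height n := by
  rcases le_or_gt j (cyclotomic n ℤ).natDegree with h | h
  · exact Finset.le_sup (f := fun j => ((cyclotomic n ℤ).coeff j).natAbs)
      (Finset.mem_range.2 (by omega))
  · rw [coeff_eq_zero_of_natDegree_lt h]; simp

lemma height_le {n A : ℕ} (h : ∀ j, ((cyclotomic n ℤ).coeff j).natAbs ≤ A) : height n ≤ A :=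
  Finset.sup_le fun j _ => h j

/-- The maximal height. -/
theorem isGreatest {k p q : ℕ} (hk : 1 ≤ k) (hp : p.Prime) (hq : q.Prime)
    (hp0 : (2 * k + 1) ^ 2 + 4 ≤ p) (hq0 : p ^ 2 ≤ q) (hmod : (2 * k + 1) * q ≡ 2 [MOD p]) :
    IsGreatest {A | ∃ r : ℕ, r.Prime ∧ q < r ∧ A = height (p * q * r)} ((p + 2 * k + 1) / 2) ∧
      2 * ((p + 2 * k + 1) / 2) = p + 2 * k + 1 := by
  have hp13 : 13 ≤ p := by nlinarith
  have hodd : p % 2 = 1 := by
    rcases hp.eq_two_or_odd with h | h
    · omega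
    · exact h
  have hl : 2 * ((p + 2 * k + 1) / 2) = p + 2 * k + 1 := by omega
  refine ⟨?_, hl⟩
  set l := (p + 2 * k + 1) / 2 with hldef
  have hpq : p < q := by nlinarith
  have hlp : l < p := by nlinarith
  obtain ⟨m, u, d, s, hm, h, hu0, huq, hd, hwin, hs, hs2, hσ⟩ := exists_u hp hk hp0 hq0 hmod hl
  have upper : ∀ r : ℕ, r.Prime → q < r → height (p * q * r) ≤ l := by
    intro r hr hqr
    apply height_le
    intro j
    have := coeff_le hp hq hr hpq.ne (by omega) hqr.ne hlp.le hm h j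
    omega
  constructor
  · have hpu : ¬ (p : ℤ) ∣ u := by
      rintro ⟨z, hz⟩
      have h1 : (p : ℤ) ∣ q := ⟨z + d, by linear_combination hd + hz⟩
      have h2 : p ∣ q := by exact_mod_cast h1
      exact hpq.ne ((Nat.prime_dvd_prime_iff_eq hp hq).1 h2)
    have hqu : ¬ (q : ℤ) ∣ u := by
      intro h1
      have := Int.le_of_dvd hu0 h1
      omega
    obtain ⟨r, hr, hrpq, hu⟩ := exists_r hp hq hpu hqu
    refine ⟨r, hr, by omega, le_antisymm ?_ (upper r hr (by omega))⟩
    obtain ⟨n, hn⟩ := exists_coeff_aux hp hq hr hpq (by omega) hlp hm (by omega) h hu hu0 huq hrpq hd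
      hwin hs hs2 hσ
    rw [← hn]
    exact le_height _ _
  · rintro A ⟨r, hr, hqr, rfl⟩
    exact upper r hr hqr

end final

end Pool.Agent.R436.Ternary
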