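import Mathlib

set_option autoImplicit false

/-!
# Parity of the coefficients of `T_o(q)`

`T_o(q) = ∑_{m ≥ 0} q^{2m} (-q; q)_{2m} / (q; q^2)_{m+1} = ∑ t_o(n) q^n`.

We prove that `t_o(n)` is even whenever `8 n + 9` is not of the form `x^2 + 2 y^2`.

Proof.  Modulo `2` one has `T_o(q) = ∑_m Q^m (Q; Q)_m / (1 - q^{2m+1})` with `Q = q^2`.  A Bailey type
inversion writes this as `∑_n Q^n D_n`, where
`D_n = ∑_{i + j = n} Q^{i(i-1)/2} (Q)_{i+2j+1} / ((Q)_i (Q)_j (1 - q^{2j+1}))` (all signs disappear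
modulo `2`), and a recursion in `n` gives `D_n = q^{n^2} ∑_{i ≤ 2n+1} q^{i(i+1)/2}`.  Hence, modulo `2`,
`T_o(q) = ∑_{n ≥ 0} ∑_{0 ≤ i ≤ 2n+1} q^{n^2 + 2n + i(i+1)/2}`, and
`8 (n^2 + 2 n + i (i+1) / 2) + 9 = (2 i + 1)^2 + 2 (2 (n + 1))^2`.
-/

open Finset PowerSeries

namespace Pool.Agent.R436.ToParity

/-- The `m`-th summand of `T_o(q)`. -/
noncomputable abbrev term (m : ℕ) : PowerSeries ℤ :=
  X ^ (2 * m) * (∏ k ∈ range (2 * m), (1 + X ^ (k + 1))) *
    invOfUnit (∏ k ∈ range (m + 1), (1 - X ^ (2 * k + 1))) 1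

section char_two

variable {A : Type*} [CommRing A] [CharP A 2]

/-- `(Q^a; Q)_k` in characteristic two. -/
def qp (Q : A) (a k : ℕ) : A := ∏ t ∈ range k, (1 + Q ^ (a + t))

/-- `(b; Q)_k` in characteristic two. -/
def bp (Q b : A) (k : ℕ) : A := ∏ t ∈ range k, (1 + b * Q ^ t)

/-- The Gaussian binomial coefficient `[i + j, j]`. -/
def g (Q : A) : ℕ → ℕ → A
  | 0, _ => 1
  | _ + 1, 0 => 1
  | i + 1, j + 1 => Q ^ (j + 1) * g Q i (j + 1) + g Q (i + 1) j

lemma two_eq : (2 : A) = 0 := CharTwo.two_eq_zero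

omit [CharP A 2] in
lemma g_zero_left (Q : A) (j : ℕ) : g Q 0 j = 1 := by simp [g]

omit [CharP A 2] in
lemma g_zero_right (Q : A) (i : ℕ) : g Q i 0 = 1 := by cases i <;> simp [g]

omit [CharP A 2] in
lemma g_succ (Q : A) (i j : ℕ) :
    g Q (i + 1) (j + 1) = Q ^ (j + 1) * g Q i (j + 1) + g Q (i + 1) j := by
  rw [g]

omit [CharP A 2] in
lemma qp_succ (Q : A) (a k : ℕ) : qp Q a (k + 1) = qp Q a k * (1 + Q ^ (a + k)) := by
  simp [qp, prod_range_succ]

omit [CharP A 2] in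
lemma qp_succ' (Q : A) (a k : ℕ) : qp Q a (k + 1) = (1 + Q ^ a) * qp Q (a + 1) k := by
  simp only [qp, prod_range_succ', add_zero]
  rw [mul_comm]
  congr 1
  refine prod_congr rfl fun t _ => ?_
  congr 2
  omega

omit [CharP A 2] in
lemma qp_zero (Q : A) (a : ℕ) : qp Q a 0 = 1 := by simp [qp]

omit [CharP A 2] in
lemma qp_add (Q : A) (a k l : ℕ) : qp Q a (k + l) = qp Q a k * qp Q (a + k) l := by
  induction l with
  | zero => simp [qp_zero]
  | succ l ih =>
    rw [← add_assoc, qp_succ, ih, qp_succ, mul_assoc]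
    congr 4
    omega

omit [CharP A 2] in
lemma qp_eq_bp (Q : A) (a k : ℕ) : qp Q a k = bp Q (Q ^ a) k := by
  simp [qp, bp, pow_add]

lemma g_rel (Q : A) : ∀ n i j : ℕ, i + j = n →
    (1 + Q ^ (i + j + 1)) * g Q i j = (1 + Q ^ (i + 1)) * g Q (i + 1) j ∧
    (1 + Q ^ (i + j + 1)) * g Q i j = (1 + Q ^ (j + 1)) * g Q i (j + 1) := by
  have h2 := two_eq (A := A)
  intro n
  induction n with
  | zero =>
    intro i j h
    obtain ⟨rfl, rfl⟩ : i = 0 ∧ j = 0 := by omega
    simp [g_zero_left, g_zero_right]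
  | succ n ih =>
    intro i j h
    constructor
    · rcases j with _ | j
      · simp [g_zero_right]
      · obtain ⟨h3, h4⟩ := ih i j (by omega)
        rw [g_succ]
        linear_combination h3 - h4 - (Q * Q ^ j * g Q i (j + 1)) * h2
    · rcases i with _ | i
      · simp [g_zero_left]
      · obtain ⟨h3, h4⟩ := ih i j (by omega)
        rw [g_succ]
        linear_combination (Q ^ (j + 1)) * h4 - (Q ^ (j + 1)) * h3 -
          (Q * Q ^ j * g Q (i + 1) j) * h2

lemma g_rel_left (Q : A) (i j : ℕ) :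
    (1 + Q ^ (i + j + 1)) * g Q i j = (1 + Q ^ (i + 1)) * g Q (i + 1) j :=
  (g_rel Q (i + j) i j rfl).1

lemma g_rel_right (Q : A) (i j : ℕ) :
    (1 + Q ^ (i + j + 1)) * g Q i j = (1 + Q ^ (j + 1)) * g Q i (j + 1) :=
  (g_rel Q (i + j) i j rfl).2

lemma choose_two_succ (i : ℕ) : (i + 1).choose 2 = i.choose 2 + i := by
  rw [Nat.choose_succ_succ' i 1, Nat.choose_one_right, add_comm]

/-- `(Q)_j [i + j, j] = (Q^{i+1})_j`. -/
lemma qp_mul_g (Q : A) (i j : ℕ) : qp Q 1 j * g Q i j = qp Q (i + 1) j := by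
  induction j with
  | zero => simp [qp_zero, g_zero_right]
  | succ j ih =>
    rw [qp_succ, qp_succ, ← ih]
    have h := g_rel_right Q i j
    have e1 : Q ^ (1 + j) = Q ^ (j + 1) := by rw [add_comm]
    have e2 : Q ^ (i + 1 + j) = Q ^ (i + j + 1) := by congr 1; omega
    rw [e1, e2]
    linear_combination (-qp Q 1 j) * h

omit [CharP A 2] in
lemma bp_succ' (Q b : A) (k : ℕ) : bp Q b (k + 1) = (1 + b) * bp Q (b * Q) k := by
  simp only [bp, prod_range_succ', pow_zero, mul_one]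
  rw [mul_comm]
  congr 1
  refine prod_congr rfl fun t _ => ?_
  ring

/-- The `q`-Chu-Vandermonde sum needed here. -/
lemma sum_bp (Q : A) (n : ℕ) : ∀ b : A,
    ∑ p ∈ antidiagonal n, Q ^ (p.1.choose 2) * g Q p.1 p.2 * bp Q b p.2 =
      Q ^ (n.choose 2) * b ^ n := by
  have h2 := two_eq (A := A)
  induction n with
  | zero => intro b; simp [g_zero_left, bp]
  | succ n ih =>
    intro b
    have key : ∀ p ∈ antidiagonal (n + 1),
        Q ^ (p.1.choose 2) * g Q p.1 p.2 * bp Q b p.2 =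
        (if p.1 = 0 then 0 else Q ^ (p.1.choose 2) * Q ^ p.2 * g Q (p.1 - 1) p.2 * bp Q b p.2) +
        (if p.2 = 0 then 0 else Q ^ (p.1.choose 2) * g Q p.1 (p.2 - 1) * bp Q b p.2) := by
      rintro ⟨i, j⟩ hp
      rw [HasAntidiagonal.mem_antidiagonal] at hp
      simp only at hp ⊢
      rcases i with _ | i
      · rcases j with _ | j
        · omega
        · simp [g_zero_left]
      · rcases j with _ | j
        · simp [g_zero_right]
        · simp only [Nat.add_eq_zero_iff, one_ne_zero, and_false, if_false, Nat.add_sub_cancel]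
          rw [g_succ]
          ring
    rw [sum_congr rfl key, sum_add_distrib]
    have e1 : ∑ p ∈ antidiagonal (n + 1),
        (if p.1 = 0 then (0 : A) else
          Q ^ (p.1.choose 2) * Q ^ p.2 * g Q (p.1 - 1) p.2 * bp Q b p.2) =
        Q ^ n * (Q ^ (n.choose 2) * b ^ n) := by
      rw [Finset.Nat.sum_antidiagonal_succ, ← ih b, mul_sum]
      simp only [if_true, zero_add, Nat.add_eq_zero_iff, one_ne_zero, and_false, if_false,
        Nat.add_sub_cancel]
      refine sum_congr rfl ?_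
      rintro ⟨i, j⟩ hp
      rw [HasAntidiagonal.mem_antidiagonal] at hp
      simp only at hp ⊢
      rw [choose_two_succ, ← hp, pow_add, pow_add]
      ring
    have e2 : ∑ p ∈ antidiagonal (n + 1),
        (if p.2 = 0 then (0 : A) else Q ^ (p.1.choose 2) * g Q p.1 (p.2 - 1) * bp Q b p.2) =
        (1 + b) * (Q ^ (n.choose 2) * (b * Q) ^ n) := by
      rw [Finset.Nat.sum_antidiagonal_succ', ← ih (b * Q), mul_sum]
      simp only [if_true, zero_add, Nat.add_eq_zero_iff, one_ne_zero, and_false, if_false,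
        Nat.add_sub_cancel]
      refine sum_congr rfl ?_
      rintro ⟨i, j⟩ _
      simp only
      rw [bp_succ']
      ring
    rw [e1, e2, choose_two_succ]
    linear_combination (Q ^ n * Q ^ (n.choose 2) * b ^ n) * h2

/-- `e(i, j) = Q^{i(i-1)/2} [i + j, j] (Q^{i+j+1})_j`. -/
def e (Q : A) (i j : ℕ) : A := Q ^ (i.choose 2) * g Q i j * qp Q (i + j + 1) j

/-- `c(i, j) = Q^{i(i-1)/2} [i + j, j] (Q^{i+j+1})_{j+1}`. -/
def c (Q : A) (i j : ℕ) : A := Q ^ (i.choose 2) * g Q i j * qp Q (i + j + 1) (j + 1)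

lemma sum_e (Q : A) (n : ℕ) :
    ∑ p ∈ antidiagonal n, e Q p.1 p.2 = Q ^ (n.choose 2 + n * (n + 1)) := by
  rw [pow_add, mul_comm n (n + 1), pow_mul, ← sum_bp Q n (Q ^ (n + 1))]
  refine sum_congr rfl ?_
  rintro ⟨i, j⟩ hp
  rw [HasAntidiagonal.mem_antidiagonal] at hp
  simp only at hp ⊢
  rw [e, qp_eq_bp, hp]

omit [CharP A 2] in
lemma c_eq_e (Q : A) (i j : ℕ) : c Q i j = e Q i j * (1 + Q ^ (i + 2 * j + 1)) := by
  rw [c, e, qp_succ]
  have : Q ^ (i + j + 1 + j) = Q ^ (i + 2 * j + 1) := by congr 1; omega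
  rw [this]
  ring

lemma c_rel (Q : A) (i j : ℕ) : Q ^ i * c Q i j = e Q (i + 1) j * (1 + Q ^ (i + 1)) := by
  rw [c, e, qp_succ', choose_two_succ, pow_add]
  have e2 : i + 1 + j + 1 = i + j + 1 + 1 := by omega
  rw [e2]
  have h := g_rel_left Q i j
  linear_combination (Q ^ i * Q ^ (i.choose 2) * qp Q (i + j + 1 + 1) j) * h

/-- The finite identity behind the theorem: the inner sums of the Bailey transform. -/
lemma inner_sum (q : A) (f : ℕ → A) (hf : ∀ j, (1 + q ^ (2 * j + 1)) * f j = 1) (n : ℕ) :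
    ∑ p ∈ antidiagonal n, c (q ^ 2) p.1 p.2 * f p.2 =
      q ^ (n ^ 2) * ∑ i ∈ range (2 * n + 2), q ^ ((i + 1).choose 2) := by
  have h2 := two_eq (A := A)
  induction n with
  | zero =>
    have h0 := hf 0
    simp only [mul_zero, zero_add, pow_one] at h0
    simp only [Finset.Nat.antidiagonal_zero, sum_singleton, c_eq_e, e, Nat.choose_zero_succ,
      pow_zero, g_zero_left, qp_zero, zero_add, mul_zero, mul_one, one_mul, pow_one,
      sum_range_succ, range_zero, sum_empty]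
    simp only [ne_eq, OfNat.ofNat_ne_zero, not_false_eq_true, zero_pow, pow_zero, one_mul]
    norm_num [Nat.choose]
    linear_combination (1 + q) * h0 - (q * f 0) * h2
  | succ n ih =>
    have hrec : ∑ p ∈ antidiagonal (n + 1), c (q ^ 2) p.1 p.2 * f p.2 +
        q ^ (2 * n + 1) * ∑ p ∈ antidiagonal n, c (q ^ 2) p.1 p.2 * f p.2 =
        (1 + q ^ (2 * n + 3)) * ∑ p ∈ antidiagonal (n + 1), e (q ^ 2) p.1 p.2 := by
      rw [Finset.Nat.sum_antidiagonal_succ, Finset.Nat.sum_antidiagonal_succ, add_assoc, mul_sum,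
        ← sum_add_distrib, mul_add, mul_sum]
      congr 1
      · rw [c_eq_e]
        have h0 := hf (n + 1)
        have e1 : q ^ (2 * (n + 1) + 1) = q ^ (2 * n + 3) := by congr 1; 
        have e2 : (q ^ 2) ^ (0 + 2 * (n + 1) + 1) = q ^ (2 * n + 3) * q ^ (2 * n + 3) := by
          rw [← pow_mul, ← pow_add]; congr 1; ring
        rw [e1] at h0
        rw [e2]
        linear_combination (e (q ^ 2) 0 (n + 1) * (1 + q ^ (2 * n + 3))) * h0 -
          (e (q ^ 2) 0 (n + 1) * q ^ (2 * n + 3) * f (n + 1)) * h2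
      · refine sum_congr rfl ?_
        rintro ⟨i, j⟩ hp
        rw [HasAntidiagonal.mem_antidiagonal] at hp
        simp only at hp ⊢
        have h3 := c_rel (q ^ 2) i j
        have h0 := hf j
        rw [c_eq_e (q ^ 2) (i + 1) j]
        subst hp
        have e1 : q ^ (2 * (i + j) + 1) = q ^ (2 * j + 1) * (q ^ 2) ^ i := by
          rw [← pow_mul, ← pow_add]; congr 1; ring
        have e2 : (q ^ 2) ^ (i + 1 + 2 * j + 1) = q ^ (2 * (i + j) + 3) * q ^ (2 * j + 1) := by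
          rw [← pow_mul, ← pow_add]; congr 1; ring
        have e3 : q ^ (2 * (i + j) + 3) = q ^ (2 * j + 1) * (q ^ 2) ^ (i + 1) := by
          rw [← pow_mul, ← pow_add]; congr 1; ring
        rw [e2, e1, e3]
        linear_combination (q ^ (2 * j + 1) * f j) * h3 +
          (e (q ^ 2) (i + 1) j * (1 + q ^ (2 * j + 1) * (q ^ 2) ^ (i + 1))) * h0
    rw [sum_e, ih] at hrec
    have e5 : q ^ ((n + 1) ^ 2) * ∑ i ∈ range (2 * (n + 1) + 2), q ^ ((i + 1).choose 2) =
        q ^ (2 * n + 1) * (q ^ (n ^ 2) * ∑ i ∈ range (2 * n + 2), q ^ ((i + 1).choose 2)) +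
        (1 + q ^ (2 * n + 3)) * (q ^ 2) ^ ((n + 1).choose 2 + (n + 1) * (n + 1 + 1)) := by
      rw [show 2 * (n + 1) + 2 = 2 * n + 2 + 1 + 1 by ring, sum_range_succ, sum_range_succ]
      have h6 : 2 * (n + 1).choose 2 = (n + 1) * n := by
        have := Nat.choose_two_right (n + 1)
        rw [Nat.add_sub_cancel] at this
        rw [this]
        exact Nat.mul_div_cancel' (by
          have := Nat.even_mul_succ_self n
          rw [mul_comm] at this
          exact this.two_dvd)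
      have h7 : (2 * n + 2 + 1).choose 2 = (n + 1) * (2 * n + 3) := by
        rw [Nat.choose_two_right]
        refine Nat.div_eq_of_eq_mul_left (by norm_num) ?_
        rw [Nat.add_sub_cancel]; ring
      have h8 : (2 * n + 2 + 1 + 1).choose 2 = (n + 2) * (2 * n + 3) := by
        rw [Nat.choose_two_right]
        refine Nat.div_eq_of_eq_mul_left (by norm_num) ?_
        rw [Nat.add_sub_cancel]; ring
      have e6 : (q ^ 2) ^ ((n + 1).choose 2 + (n + 1) * (n + 1 + 1)) =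
          q ^ ((n + 1) * (3 * n + 4)) := by
        rw [← pow_mul, mul_add, h6]; congr 1; ring
      rw [h7, h8, e6]
      have e7 : q ^ ((n + 1) ^ 2) = q ^ (2 * n + 1) * q ^ (n ^ 2) := by
        rw [← pow_add]; congr 1; ring
      have e8 : q ^ ((n + 1) ^ 2) * q ^ ((n + 1) * (2 * n + 3)) = q ^ ((n + 1) * (3 * n + 4)) := by
        rw [← pow_add]; congr 1; ring
      have e9 : q ^ ((n + 1) ^ 2) * q ^ ((n + 2) * (2 * n + 3)) =
          q ^ (2 * n + 3) * q ^ ((n + 1) * (3 * n + 4)) := by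
        rw [← pow_add, ← pow_add]; congr 1; ring
      rw [mul_add, mul_add, e8, e9, e7]
      ring
    rw [e5]
    linear_combination hrec - (q ^ (2 * n + 1) *
      (q ^ (n ^ 2) * ∑ i ∈ range (2 * n + 2), q ^ ((i + 1).choose 2))) * h2

/-- Telescoping. -/
lemma tele (Q : A) (r I : ℕ) :
    ∑ i ∈ range I, Q ^ ((i + 1).choose 2) * qp Q (i + 1) (r + 2) =
      (1 + Q ^ (r + 1)) * ∑ i ∈ range I, Q ^ ((i + 1).choose 2) * qp Q (i + 1) r +
      Q ^ (r + 1) * Q ^ ((I + 1).choose 2) * qp Q I (r + 1) := by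
  have h2 := two_eq (A := A)
  induction I with
  | zero =>
    have : qp Q 0 (r + 1) = 0 := by
      rw [qp_succ']
      simp only [pow_zero]
      linear_combination (qp Q (0 + 1) r) * h2
    simp [this]
  | succ I ih =>
    rw [sum_range_succ, sum_range_succ, ih, choose_two_succ (I + 1), qp_succ' Q I r,
      qp_succ Q (I + 1) r, qp_succ Q (I + 1) (r + 1), qp_succ Q (I + 1) r]
    have e1 : Q ^ (I + 1 + r) = Q ^ (r + 1) * Q ^ I := by rw [← pow_add]; congr 1; ring
    have e2 : Q ^ (I + 1 + (r + 1)) = Q * (Q ^ (r + 1) * Q ^ I) := by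
      rw [← pow_add, ← pow_succ']; congr 1; ring
    have e3 : Q ^ ((I + 1).choose 2 + (I + 1)) = Q ^ ((I + 1).choose 2) * (Q * Q ^ I) := by
      rw [pow_add, ← pow_succ']
    rw [e1, e2, e3]
    generalize Q ^ (r + 1) = a
    generalize Q ^ I = y
    generalize qp Q (I + 1) r = z
    generalize Q ^ ((I + 1).choose 2) = w
    linear_combination (w * z * a * y) * h2

/-- The infinite sum of the Bailey transform, truncated. -/
lemma qp_sum (Q : A) (j I : ℕ) : Q ^ ((I + 1).choose 2) ∣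
    (∑ i ∈ range I, Q ^ ((i + 1).choose 2) * qp Q (i + 1) (2 * j + 1)) - qp Q 1 j * qp Q 1 j := by
  have h2 := two_eq (A := A)
  induction j with
  | zero =>
    have : ∀ I, ∑ i ∈ range I, Q ^ ((i + 1).choose 2) * qp Q (i + 1) (2 * 0 + 1) =
        1 + Q ^ ((I + 1).choose 2) := by
      intro I
      induction I with
      | zero =>
        simp
        linear_combination -h2
      | succ I ih =>
        rw [sum_range_succ, ih, choose_two_succ (I + 1), mul_zero, zero_add, qp_succ, qp_zero,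
          add_zero, pow_add]
        linear_combination (Q ^ ((I + 1).choose 2)) * h2
    rw [this, qp_zero]
    exact ⟨1, by ring⟩
  | succ j ih =>
    obtain ⟨u, hu⟩ := ih
    rw [show 2 * (j + 1) + 1 = 2 * j + 1 + 2 by ring, tele, qp_succ Q 1 j]
    refine ⟨(1 + Q ^ (2 * j + 1 + 1)) * u + Q ^ (2 * j + 1 + 1) * qp Q I (2 * j + 1 + 1), ?_⟩
    have e1 : Q ^ (2 * j + 1 + 1) = Q ^ (1 + j) * Q ^ (1 + j) := by rw [← pow_add]; congr 1; ring
    rw [e1]
    linear_combination (1 + Q ^ (1 + j) * Q ^ (1 + j)) * hu -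
      (qp Q 1 j * qp Q 1 j * Q ^ (1 + j)) * h2

end char_two

/-! ## Power series over `ZMod 2` -/

section series

instance : CharP (PowerSeries (ZMod 2)) 2 :=
  charP_of_injective_ringHom (f := PowerSeries.C (R := ZMod 2)) PowerSeries.C_injective 2

/-- The power series `q` over `ZMod 2`. -/
noncomputable abbrev qq : PowerSeries (ZMod 2) := X

lemma coeff_zero_qp (k : ℕ) : constantCoeff (qp (qq ^ 2) 1 k) = 1 := by
  rw [qp, map_prod]
  refine prod_eq_one fun t _ => ?_
  simp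

lemma qp_isUnit (k : ℕ) : IsUnit (qp (qq ^ 2) 1 k) := by
  rw [PowerSeries.isUnit_iff_constantCoeff, coeff_zero_qp]
  exact isUnit_one

/-- The Bailey transform: `∑_m Q^m (Q)_m f_m = ∑_n Q^n ∑_{i + j = n} c(i, j) f_j`, truncated. -/
lemma bailey (f : ℕ → PowerSeries (ZMod 2)) (M : ℕ) : (qq ^ 2) ^ (M + 1) ∣
    (∑ j ∈ range (M + 1), (qq ^ 2) ^ j * qp (qq ^ 2) 1 j * f j) -
    ∑ n ∈ range (M + 1), (qq ^ 2) ^ n * ∑ p ∈ antidiagonal n, c (qq ^ 2) p.1 p.2 * f p.2 := by
  have h1 : ∑ n ∈ range (M + 1), (qq ^ 2) ^ n *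
      ∑ p ∈ antidiagonal n, c (qq ^ 2) p.1 p.2 * f p.2 =
      ∑ j ∈ range (M + 1), (qq ^ 2) ^ j * f j * ∑ i ∈ range (M + 1 - j),
        (qq ^ 2) ^ ((i + 1).choose 2) * (g (qq ^ 2) i j * qp (qq ^ 2) (i + j + 1) (j + 1)) := by
    have := Finset.sum_range_diag_flip (M + 1) (fun j i => (qq ^ 2) ^ j * f j *
      ((qq ^ 2) ^ ((i + 1).choose 2) * (g (qq ^ 2) i j * qp (qq ^ 2) (i + j + 1) (j + 1))))
    simp only [← mul_sum] at this
    rw [← this]
    refine sum_congr rfl fun n _ => ?_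
    rw [Finset.Nat.sum_antidiagonal_eq_sum_range_succ_mk, ← Finset.sum_range_reflect, mul_sum]
    refine sum_congr rfl fun j hj => ?_
    rw [mem_range] at hj
    have e1 : n + 1 - 1 - j = n - j := by omega
    have e2 : n - (n + 1 - 1 - j) = j := by omega
    simp only [e1]
    have e3 : n - (n - j) = j := by omega
    rw [e3, c, choose_two_succ, pow_add]
    have e4 : (qq ^ 2) ^ n = (qq ^ 2) ^ (n - j) * (qq ^ 2) ^ j := by
      rw [← pow_add]; congr 1; omega
    rw [e4]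
    ring
  rw [h1, ← sum_sub_distrib]
  refine dvd_sum fun j hj => ?_
  rw [mem_range] at hj
  have h2 : qp (qq ^ 2) 1 j * ∑ i ∈ range (M + 1 - j),
        (qq ^ 2) ^ ((i + 1).choose 2) * (g (qq ^ 2) i j * qp (qq ^ 2) (i + j + 1) (j + 1)) =
      ∑ i ∈ range (M + 1 - j), (qq ^ 2) ^ ((i + 1).choose 2) *
        qp (qq ^ 2) (i + 1) (2 * j + 1) := by
    rw [mul_sum]
    refine sum_congr rfl fun i _ => ?_
    rw [show 2 * j + 1 = j + (j + 1) by ring, qp_add (qq ^ 2) (i + 1) j (j + 1),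
      ← qp_mul_g (qq ^ 2) i j, show i + 1 + j = i + j + 1 by ring]
    ring
  have h3 := qp_sum (qq ^ 2) j (M + 1 - j)
  rw [← h2, ← mul_sub, (qp_isUnit j).dvd_mul_left] at h3
  have h4 : (qq ^ 2) ^ j * qp (qq ^ 2) 1 j * f j - (qq ^ 2) ^ j * f j * ∑ i ∈ range (M + 1 - j),
        (qq ^ 2) ^ ((i + 1).choose 2) * (g (qq ^ 2) i j * qp (qq ^ 2) (i + j + 1) (j + 1)) =
      - ((qq ^ 2) ^ j * ((∑ i ∈ range (M + 1 - j),
        (qq ^ 2) ^ ((i + 1).choose 2) * (g (qq ^ 2) i j * qp (qq ^ 2) (i + j + 1) (j + 1))) -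
        qp (qq ^ 2) 1 j) * f j) := by ring
  rw [h4, dvd_neg]
  refine Dvd.dvd.mul_right ?_ _
  have h5 : (qq ^ 2) ^ (M + 1) ∣ (qq ^ 2) ^ j * (qq ^ 2) ^ ((M + 1 - j + 1).choose 2) := by
    rw [← pow_add]
    refine pow_dvd_pow _ ?_
    rw [choose_two_succ]
    omega
  exact h5.trans (mul_dvd_mul_left _ h3)

/-- Modulo `2`, the truncated series is the truncated double sum. -/
lemma main (f : ℕ → PowerSeries (ZMod 2)) (hf : ∀ j, (1 + qq ^ (2 * j + 1)) * f j = 1) (M : ℕ) :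
    qq ^ (2 * (M + 1)) ∣ (∑ j ∈ range (M + 1), (qq ^ 2) ^ j * qp (qq ^ 2) 1 j * f j) -
    ∑ n ∈ range (M + 1), ∑ i ∈ range (2 * n + 2), qq ^ (2 * n + n ^ 2 + (i + 1).choose 2) := by
  have h := bailey f M
  rw [← pow_mul] at h
  convert h using 2
  refine sum_congr rfl fun n _ => ?_
  rw [inner_sum qq f hf, mul_sum, mul_sum]
  refine sum_congr rfl fun i _ => ?_
  rw [← pow_mul, pow_add, pow_add, mul_assoc]

lemma coeff_main (f : ℕ → PowerSeries (ZMod 2)) (hf : ∀ j, (1 + qq ^ (2 * j + 1)) * f j = 1)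
    (n : ℕ) (hn : ∀ m i : ℕ, n ≠ 2 * m + m ^ 2 + (i + 1).choose 2) :
    coeff n (∑ j ∈ range (n + 1), (qq ^ 2) ^ j * qp (qq ^ 2) 1 j * f j) = 0 := by
  have h := main f hf n
  rw [PowerSeries.X_pow_dvd_iff] at h
  have h1 := h n (by omega)
  rw [map_sub, sub_eq_zero] at h1
  rw [h1, map_sum]
  refine sum_eq_zero fun m _ => ?_
  rw [map_sum]
  refine sum_eq_zero fun i _ => ?_
  rw [PowerSeries.coeff_X_pow, if_neg (hn m i)]

end series

/-! ## Reduction of `T_o(q)` modulo `2` -/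

/-- Reduction modulo `2` of power series. -/
noncomputable abbrev red : PowerSeries ℤ →+* PowerSeries (ZMod 2) :=
  PowerSeries.map (Int.castRingHom (ZMod 2))

lemma term_inv (m : ℕ) : (∏ k ∈ range (m + 1), (1 - (X : PowerSeries ℤ) ^ (2 * k + 1))) *
    invOfUnit (∏ k ∈ range (m + 1), (1 - X ^ (2 * k + 1))) 1 = 1 := by
  refine PowerSeries.mul_invOfUnit _ _ ?_
  rw [map_prod, Units.val_one]
  refine prod_eq_one fun k _ => ?_
  simp

lemma prod_split (m : ℕ) : ∏ k ∈ range (2 * m), (1 + qq ^ (k + 1)) =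
    (∏ k ∈ range m, (1 + qq ^ (2 * k + 1))) * qp (qq ^ 2) 1 m := by
  induction m with
  | zero => simp [qp_zero]
  | succ m ih =>
    rw [show 2 * (m + 1) = 2 * m + 1 + 1 by ring, prod_range_succ, prod_range_succ, ih,
      prod_range_succ, qp_succ, ← pow_mul, show 2 * (1 + m) = 2 * m + 1 + 1 by ring]
    ring

/-- The reciprocal of `1 - q^{2m+1}` modulo `2`. -/
noncomputable def fm (m : ℕ) : PowerSeries (ZMod 2) :=
  (∏ k ∈ range m, (1 + qq ^ (2 * k + 1))) *
    red (invOfUnit (∏ k ∈ range (m + 1), (1 - X ^ (2 * k + 1))) 1)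

lemma one_sub_eq (a : PowerSeries (ZMod 2)) : 1 - a = 1 + a := by
  have h2 := two_eq (A := PowerSeries (ZMod 2))
  linear_combination -a * h2

lemma fm_spec (m : ℕ) : (1 + qq ^ (2 * m + 1)) * fm m = 1 := by
  have h := congrArg red (term_inv m)
  rw [map_mul, map_one, map_prod] at h
  have h3 : ∏ k ∈ range (m + 1), red (1 - X ^ (2 * k + 1)) =
      ∏ k ∈ range (m + 1), (1 + qq ^ (2 * k + 1)) := by
    refine prod_congr rfl fun k _ => ?_
    rw [map_sub, map_one, map_pow, PowerSeries.map_X, one_sub_eq]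
  rw [h3, prod_range_succ] at h
  rw [fm, ← mul_assoc, mul_comm (1 + qq ^ (2 * m + 1))]
  exact h

lemma red_term (m : ℕ) : red (term m) = (qq ^ 2) ^ m * qp (qq ^ 2) 1 m * fm m := by
  rw [term, map_mul, map_mul, map_pow, PowerSeries.map_X, map_prod]
  have : ∏ k ∈ range (2 * m), red (1 + X ^ (k + 1)) = ∏ k ∈ range (2 * m), (1 + qq ^ (k + 1)) := by
    refine prod_congr rfl fun k _ => ?_
    rw [map_add, map_one, map_pow, PowerSeries.map_X]
  rw [this, prod_split, fm, ← pow_mul]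
  ring

/-- The parity statement, with the summands written out. -/
theorem even_sum (n : ℕ) (h : ¬ ∃ x y : ℤ, (8 * n + 9 : ℤ) = x ^ 2 + 2 * y ^ 2) :
    Even (∑ m ∈ range (n + 1), coeff n (term m)) := by
  have hn : ∀ m i : ℕ, n ≠ 2 * m + m ^ 2 + (i + 1).choose 2 := by
    intro m i hmi
    apply h
    refine ⟨2 * i + 1, 2 * (m + 1), ?_⟩
    have h1 : 2 * (i + 1).choose 2 = (i + 1) * i := by
      have := Nat.choose_two_right (i + 1)
      rw [Nat.add_sub_cancel] at this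
      rw [this]
      exact Nat.mul_div_cancel' (by
        have := Nat.even_mul_succ_self i
        rw [mul_comm] at this
        exact this.two_dvd)
    have h2 : (2 : ℤ) * ((i + 1).choose 2 : ℕ) = (i + 1) * i := by exact_mod_cast h1
    rw [hmi]
    push_cast
    linear_combination 4 * h2
  have h0 := coeff_main fm fm_spec n hn
  rw [← ZMod.intCast_eq_zero_iff_even]
  push_cast
  rw [← h0, map_sum]
  refine sum_congr rfl fun m _ => ?_
  rw [← red_term, PowerSeries.coeff_map]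
  simp

end Pool.Agent.R436.ToParity
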